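import Pool.Agent.MP_587aff_al.U.Prob

/-!
# Induction: the probability of not being good stays below 1/100
-/

set_option autoImplicit false
set_option linter.unusedSectionVars false

open Finset

namespace Pool.Agent.MP_587aff_al.U

universe u v w

variable {H : Type u} {B : Type v} {G : Type w} [Fintype B] [Group G]

/-- addresses of length at most `D` -/
abbrev Idx (D : ℕ) := Σ j : Fin (D + 1), (Fin j.1 → Fin 3)

/-- the address as a list -/
def toL {D : ℕ} (s : Idx D) : List (Fin 3) := List.ofFn s.2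

theorem toL_length {D : ℕ} (s : Idx D) : (toL s).length = s.1.1 := by
  rw [toL, List.length_ofFn]

theorem toL_le {D : ℕ} (s : Idx D) : (toL s).length ≤ D := by
  rw [toL_length]
  have := s.1.2
  omega

theorem exists_idx {D : ℕ} (v : List (Fin 3)) (hv : v.length ≤ D) : ∃ s : Idx D, toL s = v :=
  ⟨⟨⟨v.length, by omega⟩, v.get⟩, List.ofFn_get v⟩

theorem sum_idx (c : ℝ) (hc : 0 ≤ c) (hc3 : 3 * c < 1) (D : ℕ) :
    ∑ s : Idx D, c ^ ((toL s).length + 1) ≤ c / (1 - 3 * c) := by
  rw [Fintype.sum_sigma]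
  have h1 : ∀ j : Fin (D + 1), ∑ w : Fin j.1 → Fin 3, c ^ ((toL (⟨j, w⟩ : Idx D)).length + 1)
      = c * (3 * c) ^ j.1 := by
    intro j
    simp only [toL_length]
    rw [Finset.sum_const, Finset.card_univ, Fintype.card_fun, Fintype.card_fin, Fintype.card_fin,
      nsmul_eq_mul, mul_pow, pow_succ]
    push_cast
    ring
  rw [Finset.sum_congr rfl fun j _ => h1 j, ← Finset.mul_sum,
    Fin.sum_univ_eq_sum_range (fun j => (3 * c) ^ j), div_eq_mul_inv]
  refine mul_le_mul_of_nonneg_left ?_ hc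
  have h0 : 0 ≤ 3 * c := by positivity
  rw [← tsum_geometric_of_lt_one h0 hc3]
  exact (summable_geometric_of_lt_one h0 hc3).sum_le_tsum _ fun i _ => pow_nonneg h0 i

variable (P : Proc H B G)

/-- bound for two children -/
noncomputable def F2 (D : ℕ) (y z : B × Om B D) : ℝ :=
  ind (¬ Good P D y.2) * ind (¬ Good P D z.2)
    + ∑ s : Idx D, ∑ t : Idx D, ind (cpos P D y (toL s) = cpos P D z (toL t))

/-- bound for one child -/
noncomputable def F1 (D : ℕ) (y : B × Om B D) : ℝ :=
  ∑ s : Idx D, ind (cpos P D y (toL s) = 1)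

theorem F2_nonneg (D : ℕ) (y z : B × Om B D) : 0 ≤ F2 P D y z :=
  add_nonneg (mul_nonneg (ind_nonneg _) (ind_nonneg _))
    (Finset.sum_nonneg fun _ _ => Finset.sum_nonneg fun _ _ => ind_nonneg _)

theorem F1_nonneg (D : ℕ) (y : B × Om B D) : 0 ≤ F1 P D y :=
  Finset.sum_nonneg fun _ _ => ind_nonneg _

theorem F1_lt (D : ℕ) (y : B × Om B D) (h : F1 P D y < 1) (v : List (Fin 3))
    (hv : v.length ≤ D) : cpos P D y v ≠ 1 := by
  intro h1
  obtain ⟨s, rfl⟩ := exists_idx v hv
  have h2 : ind (cpos P D y (toL s) = 1) ≤ F1 P D y :=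
    Finset.single_le_sum (f := fun s : Idx D => ind (cpos P D y (toL s) = 1))
      (fun _ _ => ind_nonneg _) (Finset.mem_univ s)
  rw [ind_true h1] at h2
  linarith

theorem F2_lt (D : ℕ) (y z : B × Om B D) (h : F2 P D y z < 1) :
    (Good P D y.2 ∨ Good P D z.2) ∧ ∀ v v' : List (Fin 3), v.length ≤ D → v'.length ≤ D →
      cpos P D y v ≠ cpos P D z v' := by
  have h1 : 0 ≤ ind (¬ Good P D y.2) * ind (¬ Good P D z.2) :=
    mul_nonneg (ind_nonneg _) (ind_nonneg _)
  have h2 : 0 ≤ ∑ s : Idx D, ∑ t : Idx D, ind (cpos P D y (toL s) = cpos P D z (toL t)) :=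
    Finset.sum_nonneg fun _ _ => Finset.sum_nonneg fun _ _ => ind_nonneg _
  unfold F2 at h
  constructor
  · by_contra hcon
    push Not at hcon
    rw [ind_true hcon.1, ind_true hcon.2] at h
    linarith
  · intro v v' hv hv' heq
    obtain ⟨s, rfl⟩ := exists_idx v hv
    obtain ⟨t, rfl⟩ := exists_idx v' hv'
    have h3 : ∑ t : Idx D, ind (cpos P D y (toL s) = cpos P D z (toL t)) ≤
        ∑ s : Idx D, ∑ t : Idx D, ind (cpos P D y (toL s) = cpos P D z (toL t)) :=
      Finset.single_le_sum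
        (f := fun s : Idx D => ∑ t : Idx D, ind (cpos P D y (toL s) = cpos P D z (toL t)))
        (fun _ _ => Finset.sum_nonneg fun _ _ => ind_nonneg _) (Finset.mem_univ s)
    have h4 : ind (cpos P D y (toL s) = cpos P D z (toL t)) ≤
        ∑ t : Idx D, ind (cpos P D y (toL s) = cpos P D z (toL t)) :=
      Finset.single_le_sum
        (f := fun t : Idx D => ind (cpos P D y (toL s) = cpos P D z (toL t)))
        (fun _ _ => ind_nonneg _) (Finset.mem_univ t)
    rw [ind_true heq] at h4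
    linarith

theorem pointwise (D : ℕ) (x : Om B (D + 1)) :
    ind (¬ Good P (D + 1) x) ≤ ∑ k : Fin 3, F2 P D (sel x (pr k).1) (sel x (pr k).2)
      + ∑ i : Fin 3, F1 P D (sel x i) := by
  have e2 : ∀ k : Fin 3, 0 ≤ F2 P D (sel x (pr k).1) (sel x (pr k).2) := fun k => F2_nonneg P D _ _
  have e1 : ∀ i : Fin 3, 0 ≤ F1 P D (sel x i) := fun i => F1_nonneg P D _
  by_cases hg : Good P (D + 1) x
  · rw [ind_false (not_not.mpr hg)]
    exact add_nonneg (Finset.sum_nonneg fun k _ => e2 k) (Finset.sum_nonneg fun i _ => e1 i)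
  · rw [ind_true hg]
    by_contra hlt
    push Not at hlt
    rw [Fin.sum_univ_three, Fin.sum_univ_three] at hlt
    have a0 := e2 0
    have a1 := e2 1
    have a2 := e2 2
    have b0 := e1 0
    have b1 := e1 1
    have b2 := e1 2
    obtain ⟨g01, c01⟩ := F2_lt P D (sel x 0) (sel x 1)
      (show F2 P D (sel x (pr 0).1) (sel x (pr 0).2) < 1 by linarith)
    obtain ⟨g02, c02⟩ := F2_lt P D (sel x 0) (sel x 2)
      (show F2 P D (sel x (pr 1).1) (sel x (pr 1).2) < 1 by linarith)
    obtain ⟨g12, c12⟩ := F2_lt P D (sel x 1) (sel x 2)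
      (show F2 P D (sel x (pr 2).1) (sel x (pr 2).2) < 1 by linarith)
    have r0 := F1_lt P D (sel x 0) (by linarith)
    have r1 := F1_lt P D (sel x 1) (by linarith)
    have r2 := F1_lt P D (sel x 2) (by linarith)
    apply hg
    by_cases k0 : Good P D (sel x 0).2
    · rcases g12 with k1 | k2
      · exact good_of_two P D x 0 1 k0 k1 c01 r0 r1
      · exact good_of_two P D x 0 2 k0 k2 c02 r0 r2
    · have k1 := g01.resolve_left k0
      have k2 := g02.resolve_left k0
      exact good_of_two P D x 1 2 k1 k2 c12 r1 r2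

theorem coll_le (c : ℝ) (hc : 0 ≤ c) (hW : ∀ k h g, P.W k h g ≤ (c ^ 2) ^ k) (D : ℕ) (h : H)
    (v v' : List (Fin 3)) (hv : v.length ≤ D) (hv' : v'.length ≤ D) :
    ∑ y, ∑ z, nu P D h y * nu P D h z * ind (cpos P D y v = cpos P D z v')
      ≤ c ^ (v.length + 1) * c ^ (v'.length + 1) := by
  set A := ∑ y, ∑ z, nu P D h y * nu P D h z * ind (cpos P D y v = cpos P D z v') with hA
  have h1 : A ≤ (c ^ (v.length + 1)) ^ 2 := by
    rw [hA, Finset.sum_comm]
    calc ∑ z, ∑ y, nu P D h y * nu P D h z * ind (cpos P D y v = cpos P D z v')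
        = ∑ z, nu P D h z * P.W (v.length + 1) h (cpos P D z v') := by
          refine Finset.sum_congr rfl fun z _ => ?_
          rw [← cpos_law P D h _ v hv, Finset.mul_sum]
          refine Finset.sum_congr rfl fun y _ => ?_
          ring
      _ ≤ ∑ z, nu P D h z * (c ^ 2) ^ (v.length + 1) :=
          Finset.sum_le_sum fun z _ => mul_le_mul_of_nonneg_left (hW _ _ _) (nu_nonneg P D h z)
      _ = (c ^ (v.length + 1)) ^ 2 := by
          rw [← Finset.sum_mul, sum_nu, one_mul, ← pow_mul, ← pow_mul, mul_comm]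
  have h2 : A ≤ (c ^ (v'.length + 1)) ^ 2 := by
    rw [hA]
    calc ∑ y, ∑ z, nu P D h y * nu P D h z * ind (cpos P D y v = cpos P D z v')
        = ∑ y, nu P D h y * P.W (v'.length + 1) h (cpos P D y v) := by
          refine Finset.sum_congr rfl fun y _ => ?_
          rw [← cpos_law P D h _ v' hv', Finset.mul_sum]
          refine Finset.sum_congr rfl fun z _ => ?_
          rw [ind_congr (eq_comm (a := cpos P D y v))]
          ring
      _ ≤ ∑ y, nu P D h y * (c ^ 2) ^ (v'.length + 1) :=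
          Finset.sum_le_sum fun z _ => mul_le_mul_of_nonneg_left (hW _ _ _) (nu_nonneg P D h z)
      _ = (c ^ (v'.length + 1)) ^ 2 := by
          rw [← Finset.sum_mul, sum_nu, one_mul, ← pow_mul, ← pow_mul, mul_comm]
  have hs : 0 ≤ c ^ (v.length + 1) := pow_nonneg hc _
  have ht : 0 ≤ c ^ (v'.length + 1) := pow_nonneg hc _
  rcases le_total (c ^ (v.length + 1)) (c ^ (v'.length + 1)) with h3 | h3
  · refine h1.trans ?_
    rw [sq]
    exact mul_le_mul_of_nonneg_left h3 hs
  · refine h2.trans ?_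
    rw [sq]
    exact mul_le_mul_of_nonneg_right h3 ht

theorem root_le (δ : ℝ) (hW : ∀ k h g, P.W k h g ≤ δ ^ k) (D : ℕ) (h : H) :
    ∑ y, nu P D h y * F1 P D y ≤ ∑ s : Idx D, δ ^ ((toL s).length + 1) := by
  have h1 : ∑ y, nu P D h y * F1 P D y
      = ∑ s : Idx D, ∑ y, nu P D h y * ind (cpos P D y (toL s) = 1) := by
    rw [Finset.sum_comm]
    refine Finset.sum_congr rfl fun y _ => ?_
    rw [F1, Finset.mul_sum]
  rw [h1]
  refine Finset.sum_le_sum fun s _ => ?_
  rw [cpos_law P D h 1 (toL s) (toL_le s)]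
  exact hW _ _ _

theorem pair_le (c : ℝ) (hc : 0 ≤ c) (hW : ∀ k h g, P.W k h g ≤ (c ^ 2) ^ k) (D : ℕ)
    (α : ℝ) (hα : 0 ≤ α) (hb : ∀ h, ∑ x, wgt P D h x * ind (¬ Good P D x) ≤ α) (h : H) :
    ∑ y, ∑ z, nu P D h y * nu P D h z * F2 P D y z
      ≤ α ^ 2 + (∑ s : Idx D, c ^ ((toL s).length + 1)) ^ 2 := by
  have hbad : ∑ y, nu P D h y * ind (¬ Good P D y.2) ≤ α := by
    rw [sum_nu_mul P D h (fun y => ind (¬ Good P D y.2))]
    calc ∑ b, P.K h b * ∑ x, wgt P D (P.nx h b) x * ind (¬ Good P D x)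
        ≤ ∑ b, P.K h b * α :=
          Finset.sum_le_sum fun b _ => mul_le_mul_of_nonneg_left (hb _) (P.nonneg h b)
      _ = α := by rw [← Finset.sum_mul, P.sum_one, one_mul]
  have hbad0 : 0 ≤ ∑ y, nu P D h y * ind (¬ Good P D y.2) :=
    Finset.sum_nonneg fun y _ => mul_nonneg (nu_nonneg P D h y) (ind_nonneg _)
  have h1 : ∑ y, ∑ z, nu P D h y * nu P D h z * F2 P D y z =
      (∑ y, nu P D h y * ind (¬ Good P D y.2)) * (∑ z, nu P D h z * ind (¬ Good P D z.2))
      + ∑ s : Idx D, ∑ t : Idx D, ∑ y, ∑ z,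
        nu P D h y * nu P D h z * ind (cpos P D y (toL s) = cpos P D z (toL t)) := by
    have e1 : ∀ y z : B × Om B D, nu P D h y * nu P D h z * F2 P D y z =
        (nu P D h y * ind (¬ Good P D y.2)) * (nu P D h z * ind (¬ Good P D z.2))
        + ∑ s : Idx D, ∑ t : Idx D,
          nu P D h y * nu P D h z * ind (cpos P D y (toL s) = cpos P D z (toL t)) := by
      intro y z
      rw [F2, mul_add, Finset.mul_sum]
      simp only [Finset.mul_sum]
      ring
    simp only [e1, Finset.sum_add_distrib]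
    congr 1
    · rw [Finset.sum_mul]
      refine Finset.sum_congr rfl fun y _ => ?_
      rw [Finset.mul_sum]
    · have e2 : ∀ y : B × Om B D, ∑ z, ∑ s : Idx D, ∑ t : Idx D,
          nu P D h y * nu P D h z * ind (cpos P D y (toL s) = cpos P D z (toL t)) =
          ∑ s : Idx D, ∑ t : Idx D, ∑ z,
          nu P D h y * nu P D h z * ind (cpos P D y (toL s) = cpos P D z (toL t)) := by
        intro y
        rw [Finset.sum_comm]
        refine Finset.sum_congr rfl fun s _ => ?_
        rw [Finset.sum_comm]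
      simp only [e2]
      rw [Finset.sum_comm]
      refine Finset.sum_congr rfl fun s _ => ?_
      rw [Finset.sum_comm]
  rw [h1]
  refine add_le_add ?_ ?_
  · rw [sq]
    exact mul_le_mul hbad hbad hbad0 hα
  · rw [sq, Finset.sum_mul]
    refine Finset.sum_le_sum fun s _ => ?_
    rw [Finset.mul_sum]
    refine Finset.sum_le_sum fun t _ => ?_
    exact coll_le P c hc hW D h (toL s) (toL t) (toL_le s) (toL_le t)

theorem bad_le (hW : ∀ k h g, P.W k h g ≤ (((1 : ℝ) / 100) ^ 2) ^ k) (D : ℕ) :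
    ∀ h, ∑ x, wgt P D h x * ind (¬ Good P D x) ≤ 1 / 100 := by
  induction D with
  | zero =>
    intro h
    have hg : ∀ x : Om B 0, Good P 0 x := by
      intro x
      have hb : Nonempty B := by
        by_contra hne
        have h1 := P.sum_one h
        rw [not_nonempty_iff] at hne
        rw [Finset.univ_eq_empty, Finset.sum_empty] at h1
        exact zero_ne_one h1
      obtain ⟨b⟩ := hb
      refine ⟨fun _ => b, ?_, ?_⟩
      · intro u v hu hv _
        rw [List.length_eq_zero_iff.mp (Nat.le_zero.mp hu),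
          List.length_eq_zero_iff.mp (Nat.le_zero.mp hv)]
      · intro u hu
        refine ⟨[], le_rfl, ?_⟩
        rw [List.length_eq_zero_iff.mp (Nat.le_zero.mp hu)]
        rfl
    simp only [ind_false (not_not.mpr (hg _)), mul_zero, Finset.sum_const_zero]
    norm_num
  | succ D ih =>
    intro h
    have k1 : ∑ s : Idx D, ((1 : ℝ) / 100) ^ ((toL s).length + 1) ≤ 1 / 97 := by
      refine (sum_idx (1 / 100) (by norm_num) (by norm_num) D).trans ?_
      norm_num
    have k1' : 0 ≤ ∑ s : Idx D, ((1 : ℝ) / 100) ^ ((toL s).length + 1) :=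
      Finset.sum_nonneg fun s _ => by positivity
    have k2 : ∑ s : Idx D, (((1 : ℝ) / 100) ^ 2) ^ ((toL s).length + 1) ≤ 1 / 9997 := by
      refine (sum_idx ((1 / 100) ^ 2) (by norm_num) (by norm_num) D).trans ?_
      norm_num
    have hp := pair_le P (1 / 100) (by norm_num) hW D (1 / 100) (by norm_num) ih h
    have hr := root_le P ((1 / 100) ^ 2) hW D h
    calc ∑ x : Om B (D + 1), wgt P (D + 1) h x * ind (¬ Good P (D + 1) x)
        ≤ ∑ x : Om B (D + 1), wgt P (D + 1) h x *
            (∑ k : Fin 3, F2 P D (sel x (pr k).1) (sel x (pr k).2)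
              + ∑ i : Fin 3, F1 P D (sel x i)) :=
          Finset.sum_le_sum fun x _ =>
            mul_le_mul_of_nonneg_left (pointwise P D x) (wgt_nonneg P _ _ _)
      _ = ∑ k : Fin 3, ∑ x : Om B (D + 1), wgt P (D + 1) h x *
              F2 P D (sel x (pr k).1) (sel x (pr k).2)
            + ∑ i : Fin 3, ∑ x : Om B (D + 1), wgt P (D + 1) h x * F1 P D (sel x i) := by
          simp only [mul_add, Finset.sum_add_distrib, Finset.mul_sum]
          rw [Finset.sum_comm]
          congr 1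
          rw [Finset.sum_comm]
      _ = ∑ k : Fin 3, ∑ y, ∑ z, nu P D h y * nu P D h z * F2 P D y z
            + ∑ i : Fin 3, ∑ y, nu P D h y * F1 P D y := by
          congr 1
          · exact Finset.sum_congr rfl fun k _ => marg2 P D h k (F2 P D)
          · exact Finset.sum_congr rfl fun i _ => marg P D h i (F1 P D)
      _ ≤ ∑ _k : Fin 3, ((1 / 100) ^ 2 + (1 / 97) ^ 2 : ℝ) + ∑ _i : Fin 3, (1 / 9997 : ℝ) := by
          refine add_le_add (Finset.sum_le_sum fun k _ => ?_) (Finset.sum_le_sum fun i _ => ?_)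
          · refine hp.trans (add_le_add le_rfl ?_)
            exact pow_le_pow_left₀ k1' k1 2
          · exact hr.trans k2
      _ ≤ 1 / 100 := by
          simp only [Finset.sum_const, Finset.card_univ, Fintype.card_fin, nsmul_eq_mul]
          norm_num

theorem exists_good (hW : ∀ k h g, P.W k h g ≤ (((1 : ℝ) / 100) ^ 2) ^ k) (h : H) (D : ℕ) :
    ∃ l : List Bool → B, CF P.φ D l := by
  by_contra hcon
  have h1 : ∀ x : Om B D, ¬ Good P D x := by
    rintro x ⟨l, hl, -⟩
    exact hcon ⟨l, hl⟩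
  have h2 := bad_le P hW D h
  simp only [ind_true (h1 _), mul_one, sum_wgt] at h2
  norm_num at h2

end Pool.Agent.MP_587aff_al.U
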