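import Pool.Agent.MP_587aff_al.U.Conv2

/-!
# General processes

`κ : H → PMF (G × H)`: random increment and random next state. Such a process is reduced to a `Proc`
whose states are probability distributions on `H`.
-/

set_option autoImplicit false
set_option linter.unusedSectionVars false

open Finset Filter Topology
open scoped ENNReal

namespace Pool.Agent.MP_587aff_al.U

universe u v

variable {G : Type u} [Group G] {H : Type v}

/-- The law of the product of the next `k` increments, starting in the state `h`. -/
noncomputable def prodLaw (κ : H → PMF (G × H)) : ℕ → H → PMF G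
  | 0, _ => PMF.pure 1
  | k + 1, h => (κ h).bind fun x => (prodLaw κ k x.2).map fun y => y * x.1

theorem map_mul_apply (p : PMF G) (a g : G) : (p.map fun y => y * a) g = p (g * a⁻¹) := by
  classical
  rw [PMF.map_apply, tsum_eq_single (g * a⁻¹)]
  · rw [if_pos (by group)]
  · intro b hb
    rw [if_neg]
    intro h
    exact hb (by rw [h]; group)

section

variable (κ : H → PMF (G × H)) (S : Finset G) (hS : ∀ h x, κ h x ≠ 0 → x.1 ∈ S)

/-- joint law of the increment and the next state -/
noncomputable def joint (β : PMF H) : PMF (G × H) := β.bind κ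

include hS in
theorem joint_S (β : PMF H) (x : G × H) (hx : joint κ β x ≠ 0) : x.1 ∈ S := by
  by_contra hcon
  apply hx
  rw [joint, PMF.bind_apply, ENNReal.tsum_eq_zero]
  intro h
  by_contra h2
  exact hcon (hS h x (right_ne_zero_of_mul h2))

/-- the law of the increment -/
noncomputable def inc (β : PMF H) (s : G) : ℝ≥0∞ := ∑' h : H, joint κ β (s, h)

include hS in
theorem inc_sum (β : PMF H) : ∑ s : S, inc κ β s = 1 := by
  have h1 : ∑' x : G × H, joint κ β x = 1 := (joint κ β).tsum_coe
  rw [ENNReal.tsum_prod'] at h1
  have h2 : ∑' s : G, inc κ β s = ∑ s ∈ S, inc κ β s := by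
    refine tsum_eq_sum fun s hs => ?_
    rw [inc, ENNReal.tsum_eq_zero]
    intro h
    by_contra h3
    exact hs (joint_S κ S hS β (s, h) h3)
  rw [Finset.sum_coe_sort S (fun s => inc κ β s), ← h2]
  exact h1

include hS in
theorem inc_le_one (β : PMF H) (s : S) : inc κ β s ≤ 1 := by
  rw [← inc_sum κ S hS β]
  exact Finset.single_le_sum (f := fun s : S => inc κ β s) (fun _ _ => bot_le) (Finset.mem_univ s)

open Classical in
/-- the law of the next state given the increment -/
noncomputable def cond (β : PMF H) (s : G) : PMF H :=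
  if hs : inc κ β s ≠ 0 ∧ inc κ β s ≠ ⊤ then
    PMF.normalize (fun h => joint κ β (s, h)) hs.1 hs.2
  else β

theorem inc_mul_cond (β : PMF H) (s : G) (hs : inc κ β s ≠ ⊤) (h : H) :
    inc κ β s * cond κ β s h = joint κ β (s, h) := by
  classical
  by_cases h0 : inc κ β s = 0
  · rw [h0, zero_mul]
    rw [inc, ENNReal.tsum_eq_zero] at h0
    exact (h0 h).symm
  · have h1 : cond κ β s h = joint κ β (s, h) * (inc κ β s)⁻¹ := by
      unfold cond
      rw [dif_pos (show inc κ β s ≠ 0 ∧ inc κ β s ≠ ⊤ from ⟨h0, hs⟩)]
      exact PMF.normalize_apply _ _ _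
    rw [h1]
    rw [mul_comm, mul_assoc, ENNReal.inv_mul_cancel h0 hs, mul_one]

/-- the process of the conditional laws of the state -/
noncomputable def belief : Proc (PMF H) S G where
  K β s := (inc κ β s).toReal
  nx β s := cond κ β s
  φ s := s
  nonneg _ _ := ENNReal.toReal_nonneg
  sum_one β := by
    rw [← ENNReal.toReal_sum fun s _ =>
      ne_top_of_le_ne_top ENNReal.one_ne_top (inc_le_one κ S hS β s), inc_sum κ S hS β]
    exact ENNReal.toReal_one

theorem belief_W (k : ℕ) (β : PMF H) (g : G) :
    (belief κ S hS).W k β g = ((β.bind (prodLaw κ k)) g).toReal := by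
  classical
  induction k generalizing β g with
  | zero =>
    have h1 : β.bind (prodLaw κ 0) = PMF.pure 1 := PMF.bind_const β (PMF.pure 1)
    rw [h1, PMF.pure_apply, Proc.W]
    split_ifs <;> simp
  | succ k ih =>
    have h1 : (β.bind (prodLaw κ (k + 1))) g
        = ∑ s : S, inc κ β s * ((cond κ β s).bind (prodLaw κ k)) (g * (s : G)⁻¹) := by
      have e1 : β.bind (prodLaw κ (k + 1))
          = (joint κ β).bind fun x => (prodLaw κ k x.2).map fun y => y * x.1 := by
        rw [joint, PMF.bind_bind]
        rfl
      rw [e1, PMF.bind_apply]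
      simp only [map_mul_apply]
      rw [ENNReal.tsum_prod', tsum_eq_sum (s := S)]
      · rw [← Finset.sum_coe_sort S]
        refine Finset.sum_congr rfl fun s _ => ?_
        rw [PMF.bind_apply, ← ENNReal.tsum_mul_left]
        refine tsum_congr fun h => ?_
        rw [← mul_assoc, inc_mul_cond κ β s
          (ne_top_of_le_ne_top ENNReal.one_ne_top (inc_le_one κ S hS β s))]
      · intro s hs
        rw [ENNReal.tsum_eq_zero]
        intro h
        have h2 : joint κ β (s, h) = 0 := by
          by_contra h3
          exact hs (joint_S κ S hS β (s, h) h3)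
        rw [h2, zero_mul]
    rw [h1, ENNReal.toReal_sum, Proc.W]
    · refine Finset.sum_congr rfl fun s _ => ?_
      rw [ENNReal.toReal_mul, ih]
      rfl
    · intro s _
      exact ENNReal.mul_ne_top (ne_top_of_le_ne_top ENNReal.one_ne_top (inc_le_one κ S hS β s))
        (PMF.apply_ne_top _ _)

include hS in
/-- No uniformly spreading process in a supramenable group, general form. -/
theorem no_general_process (hG : Supra G) [Nonempty H] (C θ : ℝ) (hθ : θ < 1)
    (hb : ∀ k h g, (prodLaw κ k h g).toReal ≤ C * θ ^ k) : False := by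
  have : Nonempty (PMF H) := ⟨PMF.pure (Classical.arbitrary H)⟩
  refine no_process hG (belief κ S hS) C θ hθ ?_
  intro k β g
  rw [belief_W, PMF.bind_apply]
  have h0 : 0 ≤ C * θ ^ k :=
    ENNReal.toReal_nonneg.trans (hb k (Classical.arbitrary H) g)
  refine ENNReal.toReal_le_of_le_ofReal h0 ?_
  calc ∑' h, β h * prodLaw κ k h g ≤ ∑' h, β h * ENNReal.ofReal (C * θ ^ k) := by
        refine ENNReal.tsum_le_tsum fun h => ?_
        refine mul_le_mul_right ?_ _
        rw [← ENNReal.ofReal_toReal (PMF.apply_ne_top (prodLaw κ k h) g)]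
        exact ENNReal.ofReal_le_ofReal (hb k h g)
    _ = ENNReal.ofReal (C * θ ^ k) := by
        rw [ENNReal.tsum_mul_right, PMF.tsum_coe, one_mul]

end

end Pool.Agent.MP_587aff_al.U
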