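import Pool.Agent.MP_587aff_al.U.Belief

/-!
# Markov chains on subsets of the group
-/

set_option autoImplicit false
set_option linter.unusedSectionVars false

open Finset Filter Topology
open scoped ENNReal

namespace Pool.Agent.MP_587aff_al.U

universe u v

/-- The `k`-step law of a Markov chain. -/
noncomputable def stepLaw {X : Type u} (κ : X → PMF X) : ℕ → X → PMF X
  | 0, x => PMF.pure x
  | k + 1, x => (κ x).bind (stepLaw κ k)

variable {G : Type u} [Group G] {A : Set G}

/-- the chain with its increments -/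
noncomputable def chainInc (κ : A → PMF A) (a : A) : PMF (G × A) :=
  (κ a).map fun b : A => ((b : G) * (a : G)⁻¹, b)

theorem prodLaw_chainInc (κ : A → PMF A) (k : ℕ) (a : A) :
    prodLaw (chainInc κ) k a = (stepLaw κ k a).map fun b : A => (b : G) * (a : G)⁻¹ := by
  induction k generalizing a with
  | zero =>
    rw [prodLaw, stepLaw, PMF.pure_map, mul_inv_cancel]
  | succ k ih =>
    rw [prodLaw, stepLaw, PMF.map_bind, chainInc, PMF.bind_map]
    congr 1
    funext b
    show (prodLaw (chainInc κ) k b).map (fun y => y * ((b : G) * (a : G)⁻¹)) = _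
    rw [ih, PMF.map_comp]
    congr 1
    funext c
    show (c : G) * (b : G)⁻¹ * ((b : G) * (a : G)⁻¹) = (c : G) * (a : G)⁻¹
    group

theorem prodLaw_chainInc_le (κ : A → PMF A) (k : ℕ) (a : A) (g : G) (c : ℝ) (hc : 0 ≤ c)
    (h : ∀ b, (stepLaw κ k a b).toReal ≤ c) : (prodLaw (chainInc κ) k a g).toReal ≤ c := by
  classical
  rw [prodLaw_chainInc, PMF.map_apply]
  by_cases hg : g * (a : G) ∈ A
  · rw [tsum_eq_single (⟨g * a, hg⟩ : A)]
    · rw [if_pos (by simp)]
      exact h _
    · intro b hb
      rw [if_neg]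
      intro h2
      apply hb
      apply Subtype.ext
      show (b : G) = g * a
      rw [h2]
      group
  · have h1 : ∀ b : A, (if g = (b : G) * (a : G)⁻¹ then stepLaw κ k a b else 0) = 0 := by
      intro b
      rw [if_neg]
      intro h2
      apply hg
      rw [h2, inv_mul_cancel_right]
      exact b.2
    simp only [h1, tsum_zero]
    exact hc

/-- the uniform chain of a 2-to-1 system -/
noncomputable def splitChain (ρ : A × Bool → A) (a : A) : PMF A :=
  (PMF.uniformOfFintype Bool).map fun c => ρ (a, c)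

theorem stepLaw_split (ρ : A × Bool → A) (k : ℕ) (a b : A) :
    stepLaw (splitChain ρ) (k + 1) a b =
      2⁻¹ * stepLaw (splitChain ρ) k (ρ (a, true)) b
        + 2⁻¹ * stepLaw (splitChain ρ) k (ρ (a, false)) b := by
  rw [stepLaw, splitChain, PMF.bind_map, PMF.bind_apply, tsum_fintype, Fintype.sum_bool]
  simp only [PMF.uniformOfFintype_apply, Fintype.card_bool, Nat.cast_ofNat, Function.comp_apply]

theorem stepLaw_split_le (ρ : A × Bool → A) (hρ : Function.Injective ρ) (k : ℕ) (a b : A) :
    stepLaw (splitChain ρ) k a b ≤ (2⁻¹) ^ k ∧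
      (stepLaw (splitChain ρ) k a b ≠ 0 → (b : G) ∈ desc ρ k a) := by
  classical
  induction k generalizing a with
  | zero =>
    rw [stepLaw, PMF.pure_apply, pow_zero]
    constructor
    · split_ifs <;> simp
    · intro h
      have h1 : b = a := by
        by_contra h2
        exact h (if_neg h2)
      rw [h1]
      exact rfl
  | succ k ih =>
    obtain ⟨t1, t2⟩ := ih (ρ (a, true))
    obtain ⟨f1, f2⟩ := ih (ρ (a, false))
    rw [stepLaw_split]
    by_cases ht : stepLaw (splitChain ρ) k (ρ (a, true)) b = 0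
    · rw [ht, mul_zero, zero_add]
      constructor
      · rw [pow_succ, mul_comm]
        exact mul_le_mul_left f1 _
      · intro h
        exact ⟨false, f2 (fun h0 => h (by rw [h0, mul_zero]))⟩
    · have hf : stepLaw (splitChain ρ) k (ρ (a, false)) b = 0 := by
        by_contra hf
        exact desc_disj' ρ hρ k a _ (f2 hf) (t2 ht)
      rw [hf, mul_zero, add_zero]
      constructor
      · rw [pow_succ, mul_comm]
        exact mul_le_mul_left t1 _
      · intro _
        exact ⟨true, t2 ht⟩

/-- A group which is not supramenable has a uniformly spreading Markov chain on a subset. -/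
theorem exists_chain (hG : ¬ Supra G) :
    ∃ (A : Set G) (_ : A.Nonempty) (κ : A → PMF A) (S : Finset G),
      (∀ a b : A, b ∈ (κ a).support → (b : G) * (a : G)⁻¹ ∈ S) ∧
      ∀ k a b, (stepLaw κ k a b).toReal ≤ (1 / 2) ^ k := by
  unfold Supra at hG
  push Not at hG
  obtain ⟨A, hne, hA⟩ := hG
  have h1 : ∃ S : Finset G, ∀ F : Finset G, (F : Set G) ⊆ A → 2 * F.card ≤ (SF A S F).card := by
    by_contra hcon
    push Not at hcon
    obtain ⟨μ, hμ, hμ1⟩ := exists_measure A hcon
    exact hA μ hμ hμ1
  obtain ⟨S, hS⟩ := h1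
  obtain ⟨σ, ρ, hρ, hσ⟩ := exists_split A S hS
  refine ⟨A, hne, splitChain ρ, S, ?_, ?_⟩
  · intro a b hb
    rw [splitChain, PMF.support_map] at hb
    obtain ⟨c, -, rfl⟩ := hb
    rw [hσ (a, c), mul_inv_cancel_right]
    exact (σ (a, c)).2
  · intro k a b
    have h2 := (stepLaw_split_le ρ hρ k a b).1
    have h3 : ((2⁻¹ : ℝ≥0∞) ^ k).toReal = (1 / 2) ^ k := by
      rw [ENNReal.toReal_pow, ENNReal.toReal_inv]
      norm_num
    rw [← h3]
    exact ENNReal.toReal_mono (by simp) h2

end Pool.Agent.MP_587aff_al.U
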