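import Pool.Agent.MP_587aff_al.U.Emb

/-!
# The converse: groups which are not supramenable have uniformly spreading processes
-/

set_option autoImplicit false
set_option linter.unusedSectionVars false

open Finset Filter Topology
open scoped ENNReal Pointwise

namespace Pool.Agent.MP_587aff_al.U

universe u

variable {G : Type u} [Group G]

section Folner

open Classical in
/-- the elements of `S F` in `A` -/
noncomputable def SF (A : Set G) (S F : Finset G) : Finset G := (S * F).filter (· ∈ A)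

theorem mem_SF {A : Set G} {S F : Finset G} {x : G} :
    x ∈ SF A S F ↔ (∃ s ∈ S, ∃ f ∈ F, s * f = x) ∧ x ∈ A := by
  classical
  unfold SF
  rw [Finset.mem_filter, Finset.mem_mul]

open Classical in
/-- the elements of `S F` in `A` and not in `F` -/
noncomputable def Ex (A : Set G) (S F : Finset G) : Finset G := (SF A S F).filter (· ∉ F)

theorem mem_Ex {A : Set G} {S F : Finset G} {x : G} :
    x ∈ Ex A S F ↔ x ∈ SF A S F ∧ x ∉ F := by
  classical
  unfold Ex
  rw [Finset.mem_filter]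

/-- iterating an expansion -/
theorem SF_iter (A : Set G) (S : Finset G) (n : ℕ)
    (h : ∀ F : Finset G, (F : Set G) ⊆ A → (n + 1) * F.card ≤ n * (SF A S F).card)
    (k : ℕ) :
    ∃ S' : Finset G, ∀ F : Finset G, (F : Set G) ⊆ A →
      (n + 1) ^ k * F.card ≤ n ^ k * (SF A S' F).card := by
  classical
  induction k with
  | zero =>
    refine ⟨{1}, fun F hF => ?_⟩
    rw [pow_zero, pow_zero, one_mul, one_mul]
    refine Finset.card_le_card fun x hx => ?_
    rw [mem_SF]
    exact ⟨⟨1, Finset.mem_singleton_self _, x, hx, one_mul x⟩, hF hx⟩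
  | succ k ih =>
    obtain ⟨S', hS'⟩ := ih
    refine ⟨S * S', fun F hF => ?_⟩
    have h1 := hS' F hF
    have h2 := h (SF A S' F) (fun x hx => (mem_SF.mp hx).2)
    have h3 : (SF A S (SF A S' F)).card ≤ (SF A (S * S') F).card := by
      refine Finset.card_le_card fun x hx => ?_
      rw [mem_SF] at hx ⊢
      obtain ⟨⟨s, hs, y, hy, rfl⟩, hxA⟩ := hx
      rw [mem_SF] at hy
      obtain ⟨⟨t, ht, f, hf, rfl⟩, -⟩ := hy
      exact ⟨⟨s * t, Finset.mul_mem_mul hs ht, f, hf, mul_assoc _ _ _⟩, hxA⟩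
    calc (n + 1) ^ (k + 1) * F.card = (n + 1) * ((n + 1) ^ k * F.card) := by ring
      _ ≤ (n + 1) * (n ^ k * (SF A S' F).card) := Nat.mul_le_mul_left _ h1
      _ = n ^ k * ((n + 1) * (SF A S' F).card) := by ring
      _ ≤ n ^ k * (n * (SF A S (SF A S' F)).card) := Nat.mul_le_mul_left _ h2
      _ ≤ n ^ k * (n * (SF A (S * S') F).card) :=
          Nat.mul_le_mul_left _ (Nat.mul_le_mul_left _ h3)
      _ = n ^ (k + 1) * (SF A (S * S') F).card := by ring

theorem two_mul_pow_le (n : ℕ) (hn : 1 ≤ n) : 2 * n ^ n ≤ (n + 1) ^ n := by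
  have h1 : (1 : ℝ) + n * (1 / n) ≤ (1 + 1 / n) ^ n :=
    one_add_mul_le_pow (by have : (0:ℝ) ≤ 1 / n := by positivity
                           linarith) n
  have hn0 : (0 : ℝ) < n := by exact_mod_cast hn
  rw [mul_one_div_cancel hn0.ne'] at h1
  have h2 : (1 + 1 / (n : ℝ)) = (n + 1) / n := by field_simp
  rw [h2, div_pow, le_div_iff₀ (by positivity)] at h1
  have h3 : (2 : ℝ) * n ^ n ≤ (n + 1) ^ n := by
    have : (1 : ℝ) + 1 = 2 := by norm_num
    rw [this] at h1
    exact h1
  exact_mod_cast h3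

/-- Følner sets relative to `A` -/
theorem exists_folner (A : Set G)
    (hA : ∀ S : Finset G, ∃ F : Finset G, (F : Set G) ⊆ A ∧ (SF A S F).card < 2 * F.card)
    (S : Finset G) (n : ℕ) :
    ∃ F : Finset G, (F : Set G) ⊆ A ∧ F.Nonempty ∧
      n * (Ex A S F).card ≤ F.card := by
  classical
  rcases Nat.eq_zero_or_pos n with rfl | hn
  · obtain ⟨F, hF, hF2⟩ := hA S
    refine ⟨F, hF, ?_, by simp⟩
    rw [Finset.nonempty_iff_ne_empty]
    rintro rfl
    simp at hF2
  by_contra hcon
  push Not at hcon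
  have h : ∀ F : Finset G, (F : Set G) ⊆ A →
      (n + 1) * F.card ≤ n * (SF A (insert 1 S) F).card := by
    intro F hF
    rcases Finset.eq_empty_or_nonempty F with rfl | hne
    · simp
    · have h1 := hcon F hF hne
      have h2 : F.card + (Ex A S F).card ≤ (SF A (insert 1 S) F).card := by
        rw [← Finset.card_union_of_disjoint]
        · refine Finset.card_le_card fun x hx => ?_
          rw [mem_SF]
          rcases Finset.mem_union.mp hx with hx | hx
          · exact ⟨⟨1, Finset.mem_insert_self _ _, x, hx, one_mul x⟩, hF hx⟩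
          · obtain ⟨⟨s, hs, f, hf, hsf⟩, hxA⟩ := mem_SF.mp (mem_Ex.mp hx).1
            exact ⟨⟨s, Finset.mem_insert_of_mem hs, f, hf, hsf⟩, hxA⟩
        · rw [Finset.disjoint_left]
          intro x hx hx'
          exact (mem_Ex.mp hx').2 hx
      nlinarith
  obtain ⟨S', hS'⟩ := SF_iter A (insert 1 S) n h n
  obtain ⟨F, hF, hF2⟩ := hA S'
  have h1 := hS' F hF
  have h2 := two_mul_pow_le n hn
  have h3 : 0 < n ^ n := by positivity
  have h4 : n ^ n * (2 * F.card) ≤ n ^ n * (SF A S' F).card := by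
    calc n ^ n * (2 * F.card) = (2 * n ^ n) * F.card := by ring
      _ ≤ (n + 1) ^ n * F.card := Nat.mul_le_mul_right _ h2
      _ ≤ _ := h1
  have h5 := Nat.le_of_mul_le_mul_left h4 h3
  omega

end Folner

section Measure

variable (A : Set G)

open Classical in
/-- the points `x` such that `T x` meets `A`, in points of `F` only -/
noncomputable def V (F T : Finset G) : Finset G :=
  (T⁻¹ * F).filter fun x => (∃ t ∈ T, t * x ∈ A) ∧ ∀ t ∈ T, t * x ∈ A → t * x ∈ F

theorem mem_V {F T : Finset G} {x : G} :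
    x ∈ V A F T ↔ (∃ t ∈ T, t * x ∈ A) ∧ ∀ t ∈ T, t * x ∈ A → t * x ∈ F := by
  classical
  unfold V
  rw [Finset.mem_filter]
  constructor
  · exact fun h => h.2
  · intro h
    refine ⟨?_, h⟩
    obtain ⟨t, ht, htx⟩ := h.1
    rw [Finset.mem_mul]
    exact ⟨t⁻¹, Finset.inv_mem_inv ht, t * x, h.2 t ht htx, by group⟩

open Classical in
/-- the relative number of these points in `X` -/
noncomputable def cnt (F T : Finset G) (X : Set G) : ℝ≥0∞ :=
  (((V A F T).filter (· ∈ X)).card : ℝ≥0∞) / (F.card : ℝ≥0∞)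

theorem cnt_union (F T : Finset G) (X Y : Set G) (h : Disjoint X Y) :
    cnt A F T (X ∪ Y) = cnt A F T X + cnt A F T Y := by
  classical
  unfold cnt
  rw [← ENNReal.add_div, ← Nat.cast_add]
  congr 2
  rw [← Finset.card_union_of_disjoint]
  · congr 1
    ext x
    simp only [Finset.mem_filter, Finset.mem_union, Set.mem_union]
    tauto
  · rw [Finset.disjoint_left]
    intro x hx hy
    exact Set.disjoint_left.mp h (Finset.mem_filter.mp hx).2 (Finset.mem_filter.mp hy).2

open Classical in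
theorem cnt_smul (F T : Finset G) (g : G) (X : Set G) :
    cnt A F T (g • X) = cnt A F (T.image (· * g)) X := by
  unfold cnt
  congr 2
  refine Finset.card_bij' (fun x _ => g⁻¹ * x) (fun x _ => g * x) ?_ ?_ ?_ ?_
  · intro x hx
    obtain ⟨h1, h2⟩ := Finset.mem_filter.mp hx
    obtain ⟨⟨t, ht, htx⟩, h3⟩ := (mem_V A).mp h1
    rw [Finset.mem_filter, mem_V]
    refine ⟨⟨⟨t * g, Finset.mem_image_of_mem _ ht, ?_⟩, ?_⟩, ?_⟩
    · rw [mul_assoc, mul_inv_cancel_left]
      exact htx
    · intro t' ht' h4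
      obtain ⟨t'', ht'', rfl⟩ := Finset.mem_image.mp ht'
      rw [mul_assoc, mul_inv_cancel_left] at h4 ⊢
      exact h3 t'' ht'' h4
    · obtain ⟨y, hy, rfl⟩ := h2
      simpa using hy
  · intro x hx
    obtain ⟨h1, h2⟩ := Finset.mem_filter.mp hx
    obtain ⟨⟨t, ht, htx⟩, h3⟩ := (mem_V A).mp h1
    obtain ⟨t', ht', rfl⟩ := Finset.mem_image.mp ht
    rw [Finset.mem_filter, mem_V]
    refine ⟨⟨⟨t', ht', ?_⟩, ?_⟩, ?_⟩
    · rw [← mul_assoc]
      exact htx
    · intro t'' ht'' h4
      rw [← mul_assoc] at h4 ⊢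
      exact h3 (t'' * g) (Finset.mem_image_of_mem _ ht'') h4
    · exact Set.smul_mem_smul_set h2
  · intro x _
    exact mul_inv_cancel_left g x
  · intro x _
    exact inv_mul_cancel_left g x

theorem cnt_mono (F T T' : Finset G) (hT : T ⊆ T') (S : Finset G)
    (hS : ∀ t ∈ T, ∀ t' ∈ T', t' * t⁻¹ ∈ S) (X : Set G) (n : ℕ) (hF : F.Nonempty)
    (hn : n * (Ex A S F).card ≤ F.card) (hn0 : n ≠ 0) :
    cnt A F T X ≤ cnt A F T' X + (T'.card : ℝ≥0∞) / n := by
  classical
  have hF0 : (F.card : ℝ≥0∞) ≠ 0 := by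
    simpa using hF.ne_empty
  have h1 : ((V A F T).filter (· ∈ X)).card ≤ ((V A F T').filter (· ∈ X)).card +
      T'.card * (Ex A S F).card := by
    have h2 : (V A F T).filter (· ∈ X) ⊆ (V A F T').filter (· ∈ X) ∪
        (T'⁻¹ * (Ex A S F)) := by
      intro x hx
      obtain ⟨h3, h4⟩ := Finset.mem_filter.mp hx
      obtain ⟨⟨t, ht, htx⟩, h5⟩ := (mem_V A).mp h3
      rw [Finset.mem_union]
      by_cases h6 : ∀ t' ∈ T', t' * x ∈ A → t' * x ∈ F
      · left
        rw [Finset.mem_filter, mem_V]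
        exact ⟨⟨⟨t, hT ht, htx⟩, h6⟩, h4⟩
      · right
        push Not at h6
        obtain ⟨t', ht', h7, h8⟩ := h6
        rw [Finset.mem_mul]
        refine ⟨t'⁻¹, Finset.inv_mem_inv ht', t' * x, ?_, by group⟩
        rw [mem_Ex, mem_SF]
        refine ⟨⟨⟨t' * t⁻¹, hS t ht t' ht', t * x, h5 t ht htx, by group⟩, h7⟩, h8⟩
    refine (Finset.card_le_card h2).trans ((Finset.card_union_le _ _).trans ?_)
    refine Nat.add_le_add_left (Finset.card_mul_le.trans ?_) _
    rw [Finset.card_inv]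
  unfold cnt
  have h2 : (((V A F T).filter (· ∈ X)).card : ℝ≥0∞) ≤ ((V A F T').filter (· ∈ X)).card +
      T'.card * (Ex A S F).card := by exact_mod_cast h1
  refine (ENNReal.div_le_div_right h2 _).trans ?_
  rw [ENNReal.add_div]
  refine add_le_add le_rfl ?_
  rw [mul_div_assoc, div_eq_mul_inv (T'.card : ℝ≥0∞)]
  refine mul_le_mul_right ?_ _
  rw [ENNReal.div_le_iff_le_mul (Or.inl hF0) (Or.inl (ENNReal.natCast_ne_top _)), mul_comm,
    ← div_eq_mul_inv, ENNReal.le_div_iff_mul_le (Or.inl (by exact_mod_cast hn0))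
      (Or.inl (ENNReal.natCast_ne_top _)), mul_comm]
  exact_mod_cast hn

theorem cnt_one (F : Finset G) (hF : (F : Set G) ⊆ A) (hne : F.Nonempty) :
    cnt A F {1} A = 1 := by
  classical
  have hF0 : (F.card : ℝ≥0∞) ≠ 0 := by
    simpa using hne.ne_empty
  have h1 : (V A F {1}).filter (· ∈ A) = F := by
    ext x
    rw [Finset.mem_filter, mem_V]
    simp only [Finset.mem_singleton, exists_eq_left, forall_eq, one_mul]
    constructor
    · rintro ⟨⟨-, h2⟩, h3⟩
      exact h2 h3
    · intro h2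
      exact ⟨⟨hF h2, fun _ => h2⟩, hF h2⟩
  unfold cnt
  rw [h1, ENNReal.div_self hF0 (ENNReal.natCast_ne_top _)]

theorem cnt_le_one (F T : Finset G) (h1 : (1 : G) ∈ T) : cnt A F T A ≤ 1 := by
  classical
  have h2 : ((V A F T).filter (· ∈ A)) ⊆ F := by
    intro x hx
    obtain ⟨h3, h4⟩ := Finset.mem_filter.mp hx
    have h5 := ((mem_V A).mp h3).2 1 h1
    rw [one_mul] at h5
    exact h5 h4
  unfold cnt
  refine (ENNReal.div_le_div_right (b := (F.card : ℝ≥0∞)) ?_ _).trans ENNReal.div_self_le_one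
  exact_mod_cast Finset.card_le_card h2

/-- the measure obtained from relative Følner sets -/
theorem exists_measure
    (hA : ∀ S : Finset G, ∃ F : Finset G, (F : Set G) ⊆ A ∧ (SF A S F).card < 2 * F.card) :
    ∃ μ : Set G → ℝ≥0∞, IsInvMeas μ ∧ μ A = 1 := by
  classical
  choose F hFA hFne hFn using fun i : Finset G × ℕ => exists_folner A hA i.1 i.2
  let 𝒰 : Ultrafilter (Finset G × ℕ) := Ultrafilter.of atTop
  have h𝒰 : (𝒰 : Filter (Finset G × ℕ)) ≤ atTop := Ultrafilter.of_le _
  let m : Finset G → Set G → ℝ≥0∞ := fun T X => (𝒰.map fun i => cnt A (F i) T X).lim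
  have hm : ∀ T X, Tendsto (fun i => cnt A (F i) T X) 𝒰 (𝓝 (m T X)) := by
    intro T X
    exact (𝒰.map fun i => cnt A (F i) T X).le_nhds_lim
  have hlim : ∀ T X (c : ℝ≥0∞), Tendsto (fun i => cnt A (F i) T X) 𝒰 (𝓝 c) → m T X = c :=
    fun T X c h => tendsto_nhds_unique (hm T X) h
  have hadd : ∀ T X Y, Disjoint X Y → m T (X ∪ Y) = m T X + m T Y := by
    intro T X Y hXY
    apply hlim
    simp only [cnt_union A _ _ X Y hXY]
    exact (hm T X).add (hm T Y)
  have hsmul : ∀ T (g : G) X, m T (g • X) = m (T.image (· * g)) X := by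
    intro T g X
    apply hlim
    simp only [cnt_smul]
    exact hm _ _
  have hmono : ∀ T T', T ⊆ T' → ∀ X, m T X ≤ m T' X := by
    intro T T' hT X
    have h0 : Tendsto (fun i : Finset G × ℕ => (T'.card : ℝ≥0∞) / (i.2 : ℝ≥0∞)) 𝒰 (𝓝 0) := by
      have h1 : Tendsto (fun n : ℕ => (T'.card : ℝ≥0∞) / (n : ℝ≥0∞)) atTop (𝓝 0) := by
        have h2 := ENNReal.Tendsto.const_div (a := (T'.card : ℝ≥0∞)) (b := ⊤)
          ENNReal.tendsto_nat_nhds_top (Or.inr (ENNReal.natCast_ne_top _))
        rwa [ENNReal.div_top] at h2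
      have h2 : Tendsto (fun i : Finset G × ℕ => i.2) atTop atTop := by
        rw [← prod_atTop_atTop_eq]
        exact tendsto_snd
      exact (h1.comp h2).mono_left h𝒰
    have h1 : ∀ᶠ i in (𝒰 : Filter (Finset G × ℕ)),
        cnt A (F i) T X ≤ cnt A (F i) T' X + (T'.card : ℝ≥0∞) / (i.2 : ℝ≥0∞) := by
      have h2 : ∀ᶠ i : Finset G × ℕ in atTop, (T' * T⁻¹, 1) ≤ i := eventually_ge_atTop _
      filter_upwards [h𝒰 h2] with i hi
      refine cnt_mono A (F i) T T' hT i.1 ?_ X i.2 (hFne i) (hFn i) ?_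
      · intro t ht t' ht'
        exact hi.1 (Finset.mul_mem_mul ht' (Finset.inv_mem_inv ht))
      · have : 1 ≤ i.2 := hi.2
        omega
    have h2 := le_of_tendsto_of_tendsto (hm T X) ((hm T' X).add h0) h1
    rwa [add_zero] at h2
  have hle : ∀ T, m T A ≤ 1 := by
    intro T
    refine (hmono T (insert 1 T) (Finset.subset_insert _ _) A).trans ?_
    exact le_of_tendsto (hm (insert 1 T) A)
      (Eventually.of_forall fun i => cnt_le_one A _ _ (Finset.mem_insert_self _ _))
  have hone : m {1} A = 1 := by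
    apply hlim
    simp only [cnt_one A _ (hFA _) (hFne _)]
    exact tendsto_const_nhds
  have hmon : ∀ X, Monotone fun T => m T X := fun X T T' hT => hmono T T' hT X
  refine ⟨fun X => ⨆ T, m T X, ⟨?_, ?_, ?_⟩, ?_⟩
  · have h1 : ∀ T, m T ∅ = 0 := by
      intro T
      apply hlim
      have h2 : ∀ i, cnt A (F i) T ∅ = 0 := by
        intro i
        unfold cnt
        simp
      simp only [h2]
      exact tendsto_const_nhds
    simp only [h1, ciSup_const]
  · intro X Y hXY
    simp only [hadd _ X Y hXY]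
    exact (ENNReal.iSup_add_iSup_of_monotone (hmon X) (hmon Y)).symm
  · intro g X
    simp only [hsmul]
    refine le_antisymm (iSup_le fun T => le_iSup (fun T => m T X) _) (iSup_le fun T => ?_)
    refine le_trans (le_of_eq ?_) (le_iSup (fun T : Finset G => m (T.image (· * g)) X)
      (T.image (· * g⁻¹)))
    rw [Finset.image_image]
    congr 1
    ext x
    simp
  · refine le_antisymm (iSup_le fun T => hle T) ?_
    rw [← hone]
    exact le_iSup (fun T => m T A) {1}

end Measure

end Pool.Agent.MP_587aff_al.U
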