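import Pool.Agent.MP_587aff_al.U.Conv

/-!
# The process on a set without relative Følner sets (Hall's theorem)
-/

set_option autoImplicit false
set_option linter.unusedSectionVars false

open Finset Filter Topology
open scoped ENNReal Pointwise

namespace Pool.Agent.MP_587aff_al.U

universe u

variable {G : Type u} [Group G]

/-- Hall's theorem: a 2-to-1 system of translations -/
theorem exists_split (A : Set G) (S : Finset G)
    (h : ∀ F : Finset G, (F : Set G) ⊆ A → 2 * F.card ≤ (SF A S F).card) :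
    ∃ σ : A × Bool → S, ∃ ρ : A × Bool → A, Function.Injective ρ ∧
      ∀ x, ((ρ x : A) : G) = (σ x : G) * (x.1 : G) := by
  classical
  let t : A × Bool → Finset G := fun x => SF A S {(x.1 : G)}
  have hall : ∀ s : Finset (A × Bool), s.card ≤ (s.biUnion t).card := by
    intro s
    let F : Finset G := s.image fun x => (x.1 : G)
    have hF : (F : Set G) ⊆ A := by
      intro x hx
      obtain ⟨y, -, rfl⟩ := Finset.mem_image.mp (Finset.mem_coe.mp hx)
      exact y.1.2
    have h1 : s.card ≤ 2 * F.card := by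
      have h2 : s.card ≤ (F ×ˢ (Finset.univ : Finset Bool)).card := by
        refine Finset.card_le_card_of_injOn (fun x => ((x.1 : G), x.2)) ?_ ?_
        · intro x hx
          rw [Finset.mem_coe, Finset.mem_product]
          exact ⟨Finset.mem_image_of_mem _ hx, Finset.mem_univ _⟩
        · rintro ⟨x, b⟩ _ ⟨y, c⟩ _ hxy
          simp only [Prod.mk.injEq] at hxy ⊢
          exact ⟨Subtype.ext hxy.1, hxy.2⟩
      rw [Finset.card_product, Finset.card_univ, Fintype.card_bool] at h2
      omega
    refine h1.trans ((h F hF).trans (Finset.card_le_card ?_))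
    intro x hx
    obtain ⟨⟨a, ha, f, hf, rfl⟩, hxA⟩ := mem_SF.mp hx
    obtain ⟨y, hy, rfl⟩ := Finset.mem_image.mp hf
    rw [Finset.mem_biUnion]
    refine ⟨y, hy, ?_⟩
    show a * (y.1 : G) ∈ SF A S {(y.1 : G)}
    rw [mem_SF]
    exact ⟨⟨a, ha, _, Finset.mem_singleton_self _, rfl⟩, hxA⟩
  obtain ⟨f, hf, hft⟩ := (Finset.all_card_le_biUnion_card_iff_exists_injective t).mp hall
  have h2 : ∀ x : A × Bool, ∃ s : S, f x = (s : G) * (x.1 : G) := by
    intro x
    obtain ⟨⟨a, ha, y, hy, hay⟩, -⟩ := mem_SF.mp (hft x)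
    rw [Finset.mem_singleton] at hy
    exact ⟨⟨a, ha⟩, by rw [← hay, hy]⟩
  choose σ hσ using h2
  refine ⟨σ, fun x => ⟨f x, (mem_SF.mp (hft x)).2⟩, ?_, fun x => hσ x⟩
  intro x y hxy
  exact hf (congrArg Subtype.val hxy)

section

variable {A : Set G} {S : Finset G} (σ : A × Bool → S) (ρ : A × Bool → A)
  (hρ : Function.Injective ρ) (hσ : ∀ x, ((ρ x : A) : G) = (σ x : G) * (x.1 : G))

open Classical in
/-- the random descendant -/
noncomputable def splitProc : Proc A S G where
  K a s := ∑ c : Bool, if σ (a, c) = s then 1 / 2 else 0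
  nx a s := if h : (s : G) * (a : G) ∈ A then ⟨(s : G) * (a : G), h⟩ else a
  φ s := s
  nonneg a s := Finset.sum_nonneg fun c _ => by split_ifs <;> norm_num
  sum_one a := by
    rw [Finset.sum_comm]
    simp

/-- the descendants after `k` steps -/
def desc : ℕ → A → Set G
  | 0, a => {(a : G)}
  | k + 1, a => {z | ∃ c : Bool, z ∈ desc k (ρ (a, c))}

include hρ in
theorem desc_disj (k : ℕ) (a a' : A) (z : G) (h : z ∈ desc ρ k a) (h' : z ∈ desc ρ k a') :
    a = a' := by
  induction k generalizing a a' with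
  | zero =>
    apply Subtype.ext
    have h1 : z = (a : G) := h
    have h2 : z = (a' : G) := h'
    rw [← h1, ← h2]
  | succ k ih =>
    obtain ⟨c, hc⟩ := h
    obtain ⟨c', hc'⟩ := h'
    exact congrArg Prod.fst (hρ (ih _ _ hc hc'))

include hρ in
theorem desc_disj' (k : ℕ) (a : A) (z : G) (h : z ∈ desc ρ k (ρ (a, false)))
    (h' : z ∈ desc ρ k (ρ (a, true))) : False := by
  have h1 := congrArg Prod.snd (hρ (desc_disj ρ hρ k _ _ z h h'))
  simp at h1

include hσ hρ in
theorem splitProc_W (k : ℕ) (a : A) (g : G) :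
    (splitProc σ).W k a g ≤ (1 / 2) ^ k ∧
      ((splitProc σ).W k a g ≠ 0 → g * (a : G) ∈ desc ρ k a) := by
  classical
  induction k generalizing a g with
  | zero =>
    constructor
    · rw [Proc.W, pow_zero]
      split_ifs <;> norm_num
    · intro h
      rw [Proc.W] at h
      have h1 : g = 1 := by
        by_contra h2
        exact h (if_neg h2)
      rw [h1, one_mul]
      exact rfl
  | succ k ih =>
    have hnx : ∀ c : Bool, (splitProc σ).nx a (σ (a, c)) = ρ (a, c) := by
      intro c
      have h1 : ((σ (a, c) : S) : G) * (a : G) ∈ A := by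
        rw [← hσ (a, c)]
        exact (ρ (a, c)).2
      show (if h : ((σ (a, c) : S) : G) * (a : G) ∈ A then
        (⟨((σ (a, c) : S) : G) * (a : G), h⟩ : A) else a) = ρ (a, c)
      rw [dif_pos h1]
      exact Subtype.ext (hσ (a, c)).symm
    have hW : (splitProc σ).W (k + 1) a g =
        1 / 2 * (splitProc σ).W k (ρ (a, true)) (g * ((σ (a, true) : S) : G)⁻¹)
        + 1 / 2 * (splitProc σ).W k (ρ (a, false)) (g * ((σ (a, false) : S) : G)⁻¹) := by
      have h1 : (splitProc σ).W (k + 1) a g = ∑ s : S, (∑ c : Bool, if σ (a, c) = s then 1 / 2 else 0)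
          * (splitProc σ).W k ((splitProc σ).nx a s) (g * ((s : S) : G)⁻¹) := rfl
      rw [h1]
      simp only [Finset.sum_mul, ite_mul, zero_mul]
      rw [Finset.sum_comm, Fintype.sum_bool]
      simp only [Finset.sum_ite_eq, Finset.mem_univ, if_true, hnx]
    have e : ∀ c : Bool, g * ((σ (a, c) : S) : G)⁻¹ * (ρ (a, c) : G) = g * (a : G) := by
      intro c
      rw [hσ (a, c)]
      group
    obtain ⟨t1, t2⟩ := ih (ρ (a, true)) (g * ((σ (a, true) : S) : G)⁻¹)
    obtain ⟨f1, f2⟩ := ih (ρ (a, false)) (g * ((σ (a, false) : S) : G)⁻¹)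
    rw [e true] at t2
    rw [e false] at f2
    rw [hW]
    by_cases ht : (splitProc σ).W k (ρ (a, true)) (g * ((σ (a, true) : S) : G)⁻¹) = 0
    · rw [ht, mul_zero, zero_add]
      constructor
      · rw [pow_succ]
        linarith
      · intro h
        exact ⟨false, f2 (fun h0 => h (by rw [h0, mul_zero]))⟩
    · have hf : (splitProc σ).W k (ρ (a, false)) (g * ((σ (a, false) : S) : G)⁻¹) = 0 := by
        by_contra hf
        exact desc_disj' ρ hρ k a _ (f2 hf) (t2 ht)
      rw [hf, mul_zero, add_zero]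
      constructor
      · rw [pow_succ]
        linarith
      · intro _
        exact ⟨true, t2 ht⟩

end

/-- A group which is not supramenable has a uniformly exponentially spreading process. -/
theorem exists_process (hG : ¬ Supra G) :
    ∃ (A : Set G) (S : Finset G) (_ : A.Nonempty) (P : Proc A S G),
      ∀ k a g, P.W k a g ≤ (1 / 2) ^ k := by
  unfold Supra at hG
  push Not at hG
  obtain ⟨A, hne, hA⟩ := hG
  have h1 : ∃ S : Finset G, ∀ F : Finset G, (F : Set G) ⊆ A → 2 * F.card ≤ (SF A S F).card := by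
    by_contra hcon
    push Not at hcon
    obtain ⟨μ, hμ, hμ1⟩ := exists_measure A hcon
    exact hA μ hμ hμ1
  obtain ⟨S, hS⟩ := h1
  obtain ⟨σ, ρ, hρ, hσ⟩ := exists_split A S hS
  exact ⟨A, S, hne, splitProc σ, fun k a g => (splitProc_W σ ρ hρ hσ k a g).1⟩

end Pool.Agent.MP_587aff_al.U
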