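import Pool.Agent.MP_587aff_al.U.Bad

/-!
# An embedded binary tree, and the contradiction with supramenability
-/

set_option autoImplicit false
set_option linter.unusedSectionVars false

open Finset

namespace Pool.Agent.MP_587aff_al.U

universe u v w

variable {H : Type u} {B : Type v} {G : Type w} [Fintype B] [Group G]

theorem exists_embedding (P : Proc H B G)
    (hW : ∀ k h g, P.W k h g ≤ (((1 : ℝ) / 100) ^ 2) ^ k) (h : H) :
    ∃ l : List Bool → B, Function.Injective (bpos P.φ l) := by
  letI : TopologicalSpace B := ⊥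
  haveI : DiscreteTopology B := ⟨rfl⟩
  letI : TopologicalSpace G := ⊥
  haveI : DiscreteTopology G := ⟨rfl⟩
  have hcont : ∀ u : List Bool, Continuous fun l : List Bool → B => bpos P.φ l u := by
    intro u
    induction u with
    | nil => exact continuous_const
    | cons c u ih =>
      have h1 : Continuous fun l : List Bool → B => fun v' : List Bool => l (c :: v') :=
        continuous_pi fun v' => continuous_apply (c :: v')
      have h2 : Continuous fun l : List Bool → B => bpos P.φ (fun v' => l (c :: v')) u :=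
        ih.comp h1
      have h3 : Continuous fun l : List Bool → B => P.φ (l [c]) :=
        (continuous_of_discreteTopology (f := P.φ)).comp (continuous_apply [c])
      have h4 : Continuous fun p : G × G => p.1 * p.2 := continuous_of_discreteTopology
      exact h4.comp (h2.prodMk h3)
  have hclosed : ∀ D : ℕ, IsClosed {l : List Bool → B | CF P.φ D l} := by
    intro D
    have h1 : {l : List Bool → B | CF P.φ D l} = ⋂ (u : List Bool), ⋂ (v : List Bool),
        {l | u.length ≤ D → v.length ≤ D → bpos P.φ l u = bpos P.φ l v → u = v} := by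
      ext l
      simp only [Set.mem_iInter, Set.mem_setOf_eq, CF]
    rw [h1]
    refine isClosed_iInter fun u => isClosed_iInter fun v => ?_
    by_cases huv : (u.length ≤ D ∧ v.length ≤ D) ∧ u ≠ v
    · have h2 : {l : List Bool → B | u.length ≤ D → v.length ≤ D →
          bpos P.φ l u = bpos P.φ l v → u = v} =
          (fun l : List Bool → B => (bpos P.φ l u, bpos P.φ l v)) ⁻¹' {p | p.1 ≠ p.2} := by
        ext l
        simp only [Set.mem_setOf_eq, Set.mem_preimage]
        constructor
        · intro h3 h4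
          exact huv.2 (h3 huv.1.1 huv.1.2 h4)
        · intro h3 _ _ h4
          exact absurd h4 h3
      rw [h2]
      exact (isClosed_discrete _).preimage ((hcont u).prodMk (hcont v))
    · have h2 : {l : List Bool → B | u.length ≤ D → v.length ≤ D →
          bpos P.φ l u = bpos P.φ l v → u = v} = Set.univ := by
        ext l
        simp only [Set.mem_setOf_eq, Set.mem_univ, iff_true]
        intro h3 h4 _
        by_contra h5
        exact huv ⟨⟨h3, h4⟩, h5⟩
      rw [h2]
      exact isClosed_univ
  have hne : ∀ D : ℕ, ({l : List Bool → B | CF P.φ D l}).Nonempty := fun D =>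
    exists_good P hW h D
  have hanti : ∀ D : ℕ, {l : List Bool → B | CF P.φ (D + 1) l} ⊆ {l | CF P.φ D l} := by
    intro D l hl u v hu hv huv
    exact hl u v (hu.trans (Nat.le_succ D)) (hv.trans (Nat.le_succ D)) huv
  obtain ⟨l, hl⟩ := IsCompact.nonempty_iInter_of_sequence_nonempty_isCompact_isClosed
    (fun D : ℕ => {l : List Bool → B | CF P.φ D l}) hanti hne (hclosed 0).isCompact hclosed
  refine ⟨l, fun u v huv => ?_⟩
  have h1 := Set.mem_iInter.mp hl (max u.length v.length)
  exact h1 u v (le_max_left _ _) (le_max_right _ _) huv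

theorem bpos_append (φ : B → G) (l : List Bool → B) (u : List Bool) (c : Bool) :
    bpos φ l (u ++ [c]) = φ (l (u ++ [c])) * bpos φ l u := by
  induction u generalizing l with
  | nil =>
    show bpos φ (fun v' => l (c :: v')) [] * φ (l [c]) = φ (l [c]) * 1
    rw [mul_one]
    exact one_mul _
  | cons d u ih =>
    show bpos φ (fun v' => l (d :: v')) (u ++ [c]) * φ (l [d])
      = φ (l (d :: (u ++ [c]))) * (bpos φ (fun v' => l (d :: v')) u * φ (l [d]))
    rw [ih, mul_assoc]

open scoped ENNReal Pointwise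

/-- finitely additive left invariant measures on all subsets, with values in `[0, ∞]` -/
structure IsInvMeas (μ : Set G → ℝ≥0∞) : Prop where
  empty : μ ∅ = 0
  union : ∀ A B : Set G, Disjoint A B → μ (A ∪ B) = μ A + μ B
  inv : ∀ (g : G) (A : Set G), μ (g • A) = μ A

theorem IsInvMeas.mono {μ : Set G → ℝ≥0∞} (hμ : IsInvMeas μ) {A B : Set G} (h : A ⊆ B) :
    μ A ≤ μ B := by
  have h1 : B = A ∪ (B \ A) := (Set.union_diff_cancel h).symm
  rw [h1, hμ.union A (B \ A) Set.disjoint_sdiff_right]
  exact le_self_add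

theorem IsInvMeas.sum {μ : Set G → ℝ≥0∞} (hμ : IsInvMeas μ) {ι : Type*} (s : Finset ι)
    (U : ι → Set G) (hU : ∀ i ∈ s, ∀ j ∈ s, i ≠ j → Disjoint (U i) (U j)) :
    μ (⋃ i ∈ s, U i) = ∑ i ∈ s, μ (U i) := by
  classical
  induction s using Finset.induction_on with
  | empty => simp [hμ.empty]
  | insert i s hi ih =>
    rw [Finset.set_biUnion_insert, hμ.union, Finset.sum_insert hi, ih]
    · intro j hj k hk hjk
      exact hU j (Finset.mem_insert_of_mem hj) k (Finset.mem_insert_of_mem hk) hjk
    · rw [Set.disjoint_iUnion₂_right]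
      intro j hj
      refine hU i (Finset.mem_insert_self _ _) j (Finset.mem_insert_of_mem hj) ?_
      rintro rfl
      exact hi hj

/-- piecewise translations preserve the measure -/
theorem IsInvMeas.piecewise {μ : Set G → ℝ≥0∞} (hμ : IsInvMeas μ) (A : Set G) (f : G → G)
    (φ : B → G) (b : G → B) (hf : ∀ x ∈ A, f x = φ (b x) * x) (hinj : Set.InjOn f A) :
    μ (f '' A) = μ A := by
  classical
  have h1 : A = ⋃ i ∈ (Finset.univ : Finset B), {x ∈ A | b x = i} := by
    ext x
    simp
  have h2 : f '' A = ⋃ i ∈ (Finset.univ : Finset B), φ i • {x ∈ A | b x = i} := by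
    ext y
    simp only [Set.mem_image, Set.mem_iUnion, Finset.mem_univ, exists_true_left,
      Set.mem_smul_set, Set.mem_setOf_eq, smul_eq_mul]
    constructor
    · rintro ⟨x, hx, rfl⟩
      exact ⟨b x, x, ⟨hx, rfl⟩, (hf x hx).symm⟩
    · rintro ⟨i, x, ⟨hx, rfl⟩, rfl⟩
      exact ⟨x, hx, hf x hx⟩
  have h3 : μ (f '' A) = ∑ i : B, μ (φ i • {x ∈ A | b x = i}) := by
    rw [h2]
    refine hμ.sum Finset.univ _ ?_
    intro i _ j _ hij
    rw [Set.disjoint_left]
    rintro y ⟨x, ⟨hx, hxi⟩, hxy⟩ ⟨x', ⟨hx', hxj⟩, hxy'⟩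
    apply hij
    have e1 : f x = y := by rw [hf x hx, hxi]; exact hxy
    have e2 : f x' = y := by rw [hf x' hx', hxj]; exact hxy'
    have e3 : x = x' := hinj hx hx' (e1.trans e2.symm)
    rw [← hxi, ← hxj, e3]
  have h4 : μ A = ∑ i : B, μ {x ∈ A | b x = i} := by
    conv_lhs => rw [h1]
    refine hμ.sum Finset.univ _ ?_
    intro i _ j _ hij
    rw [Set.disjoint_left]
    rintro y ⟨_, hyi⟩ ⟨_, hyj⟩
    exact hij (hyi.symm.trans hyj)
  rw [h3, h4]
  exact Finset.sum_congr rfl fun i _ => hμ.inv _ _

/-- the range of an embedded binary tree carries no invariant measure -/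
theorem no_measure (φ : B → G) (l : List Bool → B) (hinj : Function.Injective (bpos φ l))
    {μ : Set G → ℝ≥0∞} (hμ : IsInvMeas μ) : μ (Set.range (bpos φ l)) ≠ 1 := by
  classical
  intro h1
  set A := Set.range (bpos φ l) with hA
  let w : G → List Bool := Function.invFun (bpos φ l)
  have hw : ∀ u, w (bpos φ l u) = u := fun u => Function.leftInverse_invFun hinj u
  have hAc : ∀ c : Bool, μ (Set.range fun u : List Bool => bpos φ l (u ++ [c])) = μ A := by
    intro c
    have h2 := hμ.piecewise A (fun x => bpos φ l (w x ++ [c])) φ (fun x => l (w x ++ [c])) ?_ ?_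
    · rw [← h2]
      congr 1
      ext y
      simp only [Set.mem_range, Set.mem_image, hA]
      constructor
      · rintro ⟨u, rfl⟩
        exact ⟨bpos φ l u, ⟨u, rfl⟩, by rw [hw]⟩
      · rintro ⟨x, ⟨u, rfl⟩, rfl⟩
        exact ⟨u, by rw [hw]⟩
    · rintro x ⟨u, rfl⟩
      show bpos φ l (w (bpos φ l u) ++ [c]) = φ (l (w (bpos φ l u) ++ [c])) * bpos φ l u
      rw [hw, bpos_append]
    · rintro x ⟨u, rfl⟩ x' ⟨u', rfl⟩ hxx
      simp only [hw] at hxx
      have h3 := hinj hxx
      rw [List.append_cancel_right h3]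
  have hdisj : Disjoint (Set.range fun u : List Bool => bpos φ l (u ++ [false]))
      (Set.range fun u : List Bool => bpos φ l (u ++ [true])) := by
    rw [Set.disjoint_left]
    rintro y ⟨u, rfl⟩ ⟨u', hu'⟩
    have h3 := hinj hu'
    have h4 := congrArg List.getLast? h3
    simp at h4
  have hsub : (Set.range fun u : List Bool => bpos φ l (u ++ [false])) ∪
      (Set.range fun u : List Bool => bpos φ l (u ++ [true])) ⊆ A := by
    rintro y (⟨u, rfl⟩ | ⟨u, rfl⟩)
    · exact ⟨_, rfl⟩
    · exact ⟨_, rfl⟩
  have h2 := hμ.mono hsub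
  rw [hμ.union _ _ hdisj, hAc, hAc, h1] at h2
  norm_num at h2

/-- Supramenability, as in the problem file. -/
def Supra (G : Type w) [Group G] : Prop :=
  ∀ A : Set G, A.Nonempty → ∃ μ : Set G → ℝ≥0∞, IsInvMeas μ ∧ μ A = 1

/-- A supramenable group has no uniformly exponentially spreading process. -/
theorem no_process (hG : Supra G) (P : Proc H B G) [Nonempty H] (C θ : ℝ) (hθ : θ < 1) :
    ¬ ∀ k h g, P.W k h g ≤ C * θ ^ k := by
  intro hP
  obtain ⟨h0⟩ := ‹Nonempty H›
  have hC : 1 ≤ C := by
    have h1 := hP 0 h0 1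
    rw [pow_zero, mul_one, Proc.W, if_pos rfl] at h1
    exact h1
  have hP' : ∀ k h g, P.W k h g ≤ C * (max θ 0) ^ k := by
    intro k h g
    rcases le_or_gt 0 θ with h1 | h1
    · rw [max_eq_left h1]
      exact hP k h g
    · exfalso
      have h2 : 0 ≤ C * θ ^ 1 := by
        rcases isEmpty_or_nonempty G with h3 | h3
        · exact (h3.false (1 : G)).elim
        · exact (P.W_nonneg 1 h0 1).trans (hP 1 h0 1)
      rw [pow_one] at h2
      nlinarith
  obtain ⟨B', i, P', hP2⟩ := exists_fast P C (max θ 0) (le_max_right _ _)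
    (max_lt hθ one_pos) hP' ((1 / 100) ^ 2 / C) (by positivity)
  have hW : ∀ k h g, P'.W k h g ≤ (((1 : ℝ) / 100) ^ 2) ^ k := by
    intro k h g
    rcases Nat.eq_zero_or_pos k with rfl | hk
    · rw [pow_zero, Proc.W]
      split_ifs <;> norm_num
    · refine (hP2 k h g).trans ?_
      rw [div_pow, mul_div_assoc', div_le_iff₀ (by positivity), mul_comm]
      refine mul_le_mul_of_nonneg_left ?_ (by positivity)
      calc C = C ^ 1 := (pow_one C).symm
        _ ≤ C ^ k := pow_le_pow_right₀ hC hk
  obtain ⟨l, hl⟩ := exists_embedding P' hW h0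
  obtain ⟨μ, hμ, hμ1⟩ := hG (Set.range (bpos P'.φ l)) (Set.range_nonempty _)
  exact no_measure P'.φ l hl hμ hμ1

end Pool.Agent.MP_587aff_al.U
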