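import Pool.Agent.MP_587aff_al.U.Tree

/-!
# The probability that the ternary tree is not good is small
-/

set_option autoImplicit false
set_option linter.unusedSectionVars false

open Finset

namespace Pool.Agent.MP_587aff_al.U

universe u v w

variable {H : Type u} {B : Type v} {G : Type w} [Fintype B] [Group G]

theorem sum_prod_three {X : Type v} [Fintype X] (f : X × X × X → ℝ) :
    ∑ x, f x = ∑ a : X, ∑ b : X, ∑ c : X, f (a, b, c) := by
  rw [Fintype.sum_prod_type]
  refine Finset.sum_congr rfl fun a _ => ?_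
  rw [Fintype.sum_prod_type]

theorem sum_Om_succ (D : ℕ) (f : Om B (D + 1) → ℝ) :
    ∑ x : Om B (D + 1), f x
      = ∑ a : B × Om B D, ∑ b : B × Om B D, ∑ c : B × Om B D, f (a, b, c) :=
  sum_prod_three (X := B × Om B D) f

theorem sum_Om_zero (f : Om B 0 → ℝ) : ∑ x : Om B 0, f x = f PUnit.unit :=
  Fintype.sum_unique (ι := PUnit.{v + 1}) f

variable (P : Proc H B G)

theorem wgt_nonneg (D : ℕ) (h : H) (x : Om B D) : 0 ≤ wgt P D h x := by
  induction D generalizing h with
  | zero => exact zero_le_one
  | succ D ih =>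
    show 0 ≤ (P.K h x.1.1 * wgt P D (P.nx h x.1.1) x.1.2) *
      ((P.K h x.2.1.1 * wgt P D (P.nx h x.2.1.1) x.2.1.2) *
        (P.K h x.2.2.1 * wgt P D (P.nx h x.2.2.1) x.2.2.2))
    exact mul_nonneg (mul_nonneg (P.nonneg _ _) (ih _ _))
      (mul_nonneg (mul_nonneg (P.nonneg _ _) (ih _ _)) (mul_nonneg (P.nonneg _ _) (ih _ _)))

theorem nu_nonneg (D : ℕ) (h : H) (x : B × Om B D) : 0 ≤ nu P D h x :=
  mul_nonneg (P.nonneg _ _) (wgt_nonneg P _ _ _)

theorem sum_nu_mul (D : ℕ) (h : H) (F : B × Om B D → ℝ) :
    ∑ y, nu P D h y * F y = ∑ b, P.K h b * ∑ x, wgt P D (P.nx h b) x * F (b, x) := by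
  rw [Fintype.sum_prod_type]
  refine Finset.sum_congr rfl fun b _ => ?_
  rw [Finset.mul_sum]
  refine Finset.sum_congr rfl fun x _ => ?_
  rw [nu, mul_assoc]

theorem sum_wgt (D : ℕ) (h : H) : ∑ x, wgt P D h x = 1 := by
  induction D generalizing h with
  | zero => rw [sum_Om_zero]; rfl
  | succ D ih =>
    have h1 : ∑ y, nu P D h y = 1 := by
      have := sum_nu_mul P D h (fun _ => 1)
      simp only [mul_one, ih, P.sum_one] at this
      exact this
    rw [sum_Om_succ]
    have h2 : ∀ a b c : B × Om B D, wgt P (D + 1) h (a, b, c) = nu P D h a * (nu P D h b * nu P D h c) :=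
      fun a b c => rfl
    simp only [h2, ← Finset.mul_sum, h1, mul_one]

theorem sum_nu (D : ℕ) (h : H) : ∑ y, nu P D h y = 1 := by
  have := sum_nu_mul P D h (fun _ => 1)
  simp only [mul_one, sum_wgt, P.sum_one] at this
  exact this

theorem marg (D : ℕ) (h : H) (i : Fin 3) (F : B × Om B D → ℝ) :
    ∑ x : Om B (D + 1), wgt P (D + 1) h x * F (sel x i) = ∑ y, nu P D h y * F y := by
  have h2 : ∀ a b c : B × Om B D, wgt P (D + 1) h (a, b, c) = nu P D h a * (nu P D h b * nu P D h c) :=
    fun a b c => rfl
  rw [sum_Om_succ]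
  simp only [h2]
  match i with
  | 0 =>
    refine Finset.sum_congr rfl fun a _ => ?_
    have h3 : ∀ b c : B × Om B D, nu P D h a * (nu P D h b * nu P D h c) * F (sel (a, b, c) 0)
        = (nu P D h a * F a) * (nu P D h b * nu P D h c) := fun b c => by
      show nu P D h a * (nu P D h b * nu P D h c) * F a = _
      ring
    simp only [h3, ← Finset.mul_sum, sum_nu, mul_one]
  | 1 =>
    have h3 : ∀ a b c : B × Om B D, nu P D h a * (nu P D h b * nu P D h c) * F (sel (a, b, c) 1)
        = nu P D h a * (nu P D h b * F b * nu P D h c) := fun a b c => by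
      show nu P D h a * (nu P D h b * nu P D h c) * F b = _
      ring
    simp only [h3, ← Finset.mul_sum, sum_nu, mul_one]
    rw [← Finset.sum_mul, sum_nu, one_mul]
  | 2 =>
    have h3 : ∀ a b c : B × Om B D, nu P D h a * (nu P D h b * nu P D h c) * F (sel (a, b, c) 2)
        = nu P D h a * (nu P D h b * (nu P D h c * F c)) := fun a b c => by
      show nu P D h a * (nu P D h b * nu P D h c) * F c = _
      ring
    simp only [h3, ← Finset.mul_sum]
    rw [← Finset.sum_mul, sum_nu, one_mul, ← Finset.sum_mul, sum_nu, one_mul]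

/-- the three pairs of children -/
def pr : Fin 3 → Fin 3 × Fin 3
  | 0 => (0, 1)
  | 1 => (0, 2)
  | 2 => (1, 2)

theorem marg2 (D : ℕ) (h : H) (k : Fin 3) (F : B × Om B D → B × Om B D → ℝ) :
    ∑ x : Om B (D + 1), wgt P (D + 1) h x * F (sel x (pr k).1) (sel x (pr k).2)
      = ∑ y, ∑ z, nu P D h y * nu P D h z * F y z := by
  have h2 : ∀ a b c : B × Om B D, wgt P (D + 1) h (a, b, c) = nu P D h a * (nu P D h b * nu P D h c) :=
    fun a b c => rfl
  rw [sum_Om_succ]
  simp only [h2]
  match k with
  | 0 =>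
    refine Finset.sum_congr rfl fun a _ => ?_
    refine Finset.sum_congr rfl fun b _ => ?_
    have h3 : ∀ c : B × Om B D, nu P D h a * (nu P D h b * nu P D h c) *
        F (sel (a, b, c) (pr 0).1) (sel (a, b, c) (pr 0).2)
        = (nu P D h a * nu P D h b * F a b) * nu P D h c := fun c => by
      show nu P D h a * (nu P D h b * nu P D h c) * F a b = _
      ring
    simp only [h3, ← Finset.mul_sum, sum_nu, mul_one]
  | 1 =>
    refine Finset.sum_congr rfl fun a _ => ?_
    have h3 : ∀ b c : B × Om B D, nu P D h a * (nu P D h b * nu P D h c) *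
        F (sel (a, b, c) (pr 1).1) (sel (a, b, c) (pr 1).2)
        = nu P D h b * (nu P D h a * nu P D h c * F a c) := fun b c => by
      show nu P D h a * (nu P D h b * nu P D h c) * F a c = _
      ring
    simp only [h3, ← Finset.mul_sum]
    rw [← Finset.sum_mul, sum_nu, one_mul]
  | 2 =>
    have h3 : ∀ a b c : B × Om B D, nu P D h a * (nu P D h b * nu P D h c) *
        F (sel (a, b, c) (pr 2).1) (sel (a, b, c) (pr 2).2)
        = nu P D h a * (nu P D h b * nu P D h c * F b c) := fun a b c => by
      show nu P D h a * (nu P D h b * nu P D h c) * F b c = _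
      ring
    simp only [h3, ← Finset.mul_sum]
    rw [← Finset.sum_mul, sum_nu, one_mul]

open Classical in
/-- the indicator of a proposition -/
noncomputable def ind (p : Prop) : ℝ := if p then 1 else 0

theorem ind_nonneg (p : Prop) : 0 ≤ ind p := by
  unfold ind; split_ifs <;> norm_num

theorem ind_true {p : Prop} (h : p) : ind p = 1 := if_pos h

theorem ind_false {p : Prop} (h : ¬ p) : ind p = 0 := if_neg h

theorem ind_congr {p q : Prop} (h : p ↔ q) : ind p = ind q := by
  rw [propext h]

theorem cpos_law_aux (v : List (Fin 3)) : ∀ (D : ℕ) (h : H) (g : G), v.length ≤ D →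
    ∑ x : Om B D, wgt P D h x * ind (posn P D x v = g) = P.W v.length h g := by
  induction v with
  | nil =>
    intro D h g _
    have h1 : ∀ x : Om B D, posn P D x [] = 1 := by
      intro x
      cases D with
      | zero => rfl
      | succ D => rfl
    simp only [h1]
    rw [← Finset.sum_mul, sum_wgt, one_mul, List.length_nil, Proc.W]
    by_cases hg : g = 1
    · rw [if_pos hg, ind_true hg.symm]
    · rw [if_neg hg, ind_false (fun h => hg h.symm)]
  | cons i v ih =>
    intro D h g hD
    cases D with
    | zero => simp at hD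
    | succ D =>
      have h1 : ∀ x : Om B (D + 1), ind (posn P (D + 1) x (i :: v) = g)
          = (fun y : B × Om B D => ind (posn P D y.2 v * P.φ y.1 = g)) (sel x i) := fun x => rfl
      simp only [h1]
      rw [marg P D h i (fun y : B × Om B D => ind (posn P D y.2 v * P.φ y.1 = g)), sum_nu_mul,
        List.length_cons, Proc.W]
      refine Finset.sum_congr rfl fun b _ => ?_
      congr 1
      rw [← ih D (P.nx h b) (g * (P.φ b)⁻¹) (by simpa using hD)]
      refine Finset.sum_congr rfl fun x _ => ?_
      congr 1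
      exact ind_congr (eq_mul_inv_iff_mul_eq.symm)

theorem cpos_law (D : ℕ) (h : H) (g : G) (v : List (Fin 3)) (hv : v.length ≤ D) :
    ∑ y : B × Om B D, nu P D h y * ind (cpos P D y v = g) = P.W (v.length + 1) h g := by
  have h1 := cpos_law_aux P (0 :: v) (D + 1) h g (by simpa using hv)
  rw [List.length_cons] at h1
  rw [← h1, ← marg P D h 0 (fun y : B × Om B D => ind (cpos P D y v = g))]
  rfl

end Pool.Agent.MP_587aff_al.U
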