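import Mathlib

/-!
# Bounded-step processes in a group

`Proc H B G`: a process with states (histories) `H`, finite alphabet `B` of steps, transition
probabilities `K h b`, next state `nx h b` and step `φ b ∈ G`; the position is multiplied on the left.
`W k h g` is the probability that the product of the next `k` steps after `h` is `g`.
-/

set_option autoImplicit false

open Finset

namespace Pool.Agent.MP_587aff_al.U

universe u v w

/-- A finite-alphabet process with values in `G`. -/
structure Proc (H : Type u) (B : Type v) (G : Type w) [Fintype B] where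
  K : H → B → ℝ
  nx : H → B → H
  φ : B → G
  nonneg : ∀ h b, 0 ≤ K h b
  sum_one : ∀ h, ∑ b, K h b = 1

variable {H : Type u} {B : Type v} {G : Type w} [Fintype B] [Group G]

open Classical in
/-- The probability that the product (on the left) of the next `k` steps is `g`. -/
noncomputable def Proc.W (P : Proc H B G) : ℕ → H → G → ℝ
  | 0, _, g => if g = 1 then 1 else 0
  | k + 1, h, g => ∑ b, P.K h b * P.W k (P.nx h b) (g * (P.φ b)⁻¹)

namespace Proc

variable (P : Proc H B G)

theorem W_nonneg (k : ℕ) (h : H) (g : G) : 0 ≤ P.W k h g := by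
  induction k generalizing h g with
  | zero => rw [W]; split_ifs <;> norm_num
  | succ k ih => rw [W]; exact Finset.sum_nonneg fun b _ => mul_nonneg (P.nonneg h b) (ih _ _)

/-- Two steps at a time. -/
def dbl : Proc H (B × B) G where
  K h b := P.K h b.1 * P.K (P.nx h b.1) b.2
  nx h b := P.nx (P.nx h b.1) b.2
  φ b := P.φ b.2 * P.φ b.1
  nonneg h b := mul_nonneg (P.nonneg _ _) (P.nonneg _ _)
  sum_one h := by
    rw [Fintype.sum_prod_type]
    simp only [← Finset.mul_sum, P.sum_one, mul_one]

theorem dbl_W (k : ℕ) (h : H) (g : G) : P.dbl.W k h g = P.W (2 * k) h g := by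
  induction k generalizing h g with
  | zero => rfl
  | succ k ih =>
    have h2 : 2 * (k + 1) = (2 * k + 1) + 1 := by ring
    rw [h2, W, W, Fintype.sum_prod_type]
    refine Finset.sum_congr rfl fun b _ => ?_
    rw [W, Finset.mul_sum]
    refine Finset.sum_congr rfl fun b' _ => ?_
    rw [ih]
    show P.K h b * P.K (P.nx h b) b' * P.W (2 * k) (P.nx (P.nx h b) b')
      (g * (P.φ b' * P.φ b)⁻¹) = _
    rw [mul_inv_rev, mul_assoc, mul_assoc]

end Proc

/-- Speeding up a process: the one-step bound becomes small. -/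
theorem exists_fast {B : Type v} [Fintype B] (P : Proc H B G) (C θ : ℝ) (hθ0 : 0 ≤ θ) (hθ : θ < 1)
    (hP : ∀ k h g, P.W k h g ≤ C * θ ^ k) (δ : ℝ) (hδ : 0 < δ) :
    ∃ (B' : Type v) (_ : Fintype B') (P' : Proc H B' G), ∀ k h g, P'.W k h g ≤ C * δ ^ k := by
  have key : ∀ m : ℕ, ∃ (B' : Type v) (_ : Fintype B') (P' : Proc H B' G),
      ∀ k h g, P'.W k h g ≤ C * (θ ^ (2 ^ m)) ^ k := by
    intro m
    induction m with
    | zero => exact ⟨B, inferInstance, P, by simpa using hP⟩
    | succ m ih =>
      obtain ⟨B', i, P', hP'⟩ := ih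
      refine ⟨B' × B', inferInstance, P'.dbl, fun k h g => ?_⟩
      rw [P'.dbl_W]
      refine (hP' (2 * k) h g).trans (le_of_eq ?_)
      rw [← pow_mul, ← pow_mul, pow_succ]
      ring_nf
  obtain ⟨n, hn⟩ := exists_pow_lt_of_lt_one hδ hθ
  obtain ⟨B', i, P', hP'⟩ := key n
  refine ⟨B', i, P', fun k h g => (hP' k h g).trans ?_⟩
  have h1 : θ ^ (2 ^ n) ≤ δ :=
    (pow_le_pow_of_le_one hθ0 hθ.le (Nat.lt_two_pow_self).le).trans hn.le
  have hC : 0 ≤ C := by
    have := hP 0 h 1
    have h2 := P.W_nonneg 0 h 1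
    rw [pow_zero, mul_one] at this
    exact h2.trans this
  exact mul_le_mul_of_nonneg_left (pow_le_pow_left₀ (pow_nonneg hθ0 _) h1 k) hC

end Pool.Agent.MP_587aff_al.U
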