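import Pool.Agent.MP_587aff_al.U.Proc

/-!
# The ternary tree indexed process contains collision-free binary trees

`Om B D`: labelings of the ternary tree of depth `D`; `wgt`: their probabilities;
`posn`: positions of the nodes; `bpos`: positions of the nodes of a labelled binary tree.
-/

set_option autoImplicit false

open Finset

namespace Pool.Agent.MP_587aff_al.U

universe u v w

variable {H : Type u} {B : Type v} {G : Type w} [Fintype B] [Group G]

/-- Labelings of the ternary tree of depth `D`. -/
def Om (B : Type v) : ℕ → Type v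
  | 0 => PUnit
  | D + 1 => (B × Om B D) × (B × Om B D) × (B × Om B D)

noncomputable instance Om.fintype (B : Type v) [Fintype B] : ∀ D, Fintype (Om B D)
  | 0 => inferInstanceAs (Fintype PUnit)
  | D + 1 =>
    let _ := Om.fintype B D
    inferInstanceAs (Fintype ((B × Om B D) × (B × Om B D) × (B × Om B D)))

/-- The child number `i`. -/
def sel {X : Type v} (x : X × X × X) : Fin 3 → X
  | 0 => x.1
  | 1 => x.2.1
  | 2 => x.2.2

/-- The probability of a labeling of the ternary tree rooted at the history `h`. -/
noncomputable def wgt (P : Proc H B G) : (D : ℕ) → H → Om B D → ℝ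
  | 0, _, _ => 1
  | D + 1, h, x => (P.K h x.1.1 * wgt P D (P.nx h x.1.1) x.1.2) *
      ((P.K h x.2.1.1 * wgt P D (P.nx h x.2.1.1) x.2.1.2) *
        (P.K h x.2.2.1 * wgt P D (P.nx h x.2.2.1) x.2.2.2))

/-- The probability of a child: first step and labeling of its subtree. -/
noncomputable def nu (P : Proc H B G) (D : ℕ) (h : H) (x : B × Om B D) : ℝ :=
  P.K h x.1 * wgt P D (P.nx h x.1) x.2

/-- The position of the node with address `v`. -/
noncomputable def posn (P : Proc H B G) : (D : ℕ) → Om B D → List (Fin 3) → G
  | 0, _, _ => 1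
  | _ + 1, _, [] => 1
  | D + 1, x, i :: v => posn P D (sel x i).2 v * P.φ (sel x i).1

/-- The position relative to the root of a node of the subtree of a child. -/
noncomputable def cpos (P : Proc H B G) (D : ℕ) (x : B × Om B D) (v : List (Fin 3)) : G :=
  posn P D x.2 v * P.φ x.1

/-- Positions in a labelled binary tree. -/
def bpos (φ : B → G) : (List Bool → B) → List Bool → G
  | _, [] => 1
  | l, c :: v => bpos φ (fun v' => l (c :: v')) v * φ (l [c])

theorem bpos_congr (φ : B → G) (l l' : List Bool → B) (h : ∀ v, v ≠ [] → l v = l' v)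
    (u : List Bool) : bpos φ l u = bpos φ l' u := by
  induction u generalizing l l' with
  | nil => rfl
  | cons c v ih =>
    rw [bpos, bpos, ih _ _ (fun v' _ => h _ (by simp)), h _ (by simp)]

/-- The binary tree is collision-free up to depth `D`. -/
def CF (φ : B → G) (D : ℕ) (l : List Bool → B) : Prop :=
  ∀ u v : List Bool, u.length ≤ D → v.length ≤ D → bpos φ l u = bpos φ l v → u = v

/-- The labeled ternary tree contains a collision-free binary tree. -/
def Good (P : Proc H B G) (D : ℕ) (x : Om B D) : Prop :=
  ∃ l : List Bool → B, CF P.φ D l ∧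
    ∀ u : List Bool, u.length ≤ D → ∃ v : List (Fin 3), v.length ≤ D ∧ posn P D x v = bpos P.φ l u

theorem good_of_two (P : Proc H B G) (D : ℕ) (x : Om B (D + 1)) (i j : Fin 3)
    (hi : Good P D (sel x i).2) (hj : Good P D (sel x j).2)
    (hcoll : ∀ v v' : List (Fin 3), v.length ≤ D → v'.length ≤ D →
      cpos P D (sel x i) v ≠ cpos P D (sel x j) v')
    (hri : ∀ v : List (Fin 3), v.length ≤ D → cpos P D (sel x i) v ≠ 1)
    (hrj : ∀ v : List (Fin 3), v.length ≤ D → cpos P D (sel x j) v ≠ 1) : Good P (D + 1) x := by
  obtain ⟨l0, hl0, hp0⟩ := hi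
  obtain ⟨l1, hl1, hp1⟩ := hj
  let l : List Bool → B := fun u => match u with
    | [] => (sel x i).1
    | false :: [] => (sel x i).1
    | true :: [] => (sel x j).1
    | false :: v => l0 v
    | true :: v => l1 v
  have hlf : ∀ v, bpos P.φ l (false :: v) = bpos P.φ l0 v * P.φ (sel x i).1 := by
    intro v
    rw [bpos]
    congr 1
    apply bpos_congr
    intro v' hv'
    cases v' with
    | nil => exact absurd rfl hv'
    | cons a b => rfl
  have hlt : ∀ v, bpos P.φ l (true :: v) = bpos P.φ l1 v * P.φ (sel x j).1 := by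
    intro v
    rw [bpos]
    congr 1
    apply bpos_congr
    intro v' hv'
    cases v' with
    | nil => exact absurd rfl hv'
    | cons a b => rfl
  have hnil : bpos P.φ l [] = 1 := rfl
  have hf : ∀ v : List Bool, v.length ≤ D →
      ∃ a : List (Fin 3), a.length ≤ D ∧ cpos P D (sel x i) a = bpos P.φ l (false :: v) := by
    intro v hv
    obtain ⟨a, ha, hav⟩ := hp0 v hv
    exact ⟨a, ha, by rw [hlf, cpos, hav]⟩
  have ht : ∀ v : List Bool, v.length ≤ D →
      ∃ a : List (Fin 3), a.length ≤ D ∧ cpos P D (sel x j) a = bpos P.φ l (true :: v) := by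
    intro v hv
    obtain ⟨a, ha, hav⟩ := hp1 v hv
    exact ⟨a, ha, by rw [hlt, cpos, hav]⟩
  refine ⟨l, ?_, ?_⟩
  · intro u v hu hv huv
    match u, v with
    | [], [] => rfl
    | [], false :: v =>
      obtain ⟨a, ha, hav⟩ := hf v (by simpa using hv)
      exact absurd (by rw [hav, ← huv, hnil]) (hri a ha)
    | [], true :: v =>
      obtain ⟨a, ha, hav⟩ := ht v (by simpa using hv)
      exact absurd (by rw [hav, ← huv, hnil]) (hrj a ha)
    | false :: u, [] =>
      obtain ⟨a, ha, hav⟩ := hf u (by simpa using hu)
      exact absurd (by rw [hav, huv, hnil]) (hri a ha)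
    | true :: u, [] =>
      obtain ⟨a, ha, hav⟩ := ht u (by simpa using hu)
      exact absurd (by rw [hav, huv, hnil]) (hrj a ha)
    | false :: u, false :: v =>
      rw [hlf, hlf] at huv
      rw [hl0 u v (by simpa using hu) (by simpa using hv) (mul_right_cancel huv)]
    | true :: u, true :: v =>
      rw [hlt, hlt] at huv
      rw [hl1 u v (by simpa using hu) (by simpa using hv) (mul_right_cancel huv)]
    | false :: u, true :: v =>
      obtain ⟨a, ha, hau⟩ := hf u (by simpa using hu)
      obtain ⟨b, hb, hbv⟩ := ht v (by simpa using hv)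
      exact absurd (by rw [hau, hbv, huv]) (hcoll a b ha hb)
    | true :: u, false :: v =>
      obtain ⟨a, ha, hau⟩ := ht u (by simpa using hu)
      obtain ⟨b, hb, hbv⟩ := hf v (by simpa using hv)
      exact absurd (by rw [hau, hbv, huv]) (hcoll b a hb ha)
  · intro u hu
    match u with
    | [] => exact ⟨[], by simp, rfl⟩
    | false :: v =>
      obtain ⟨a, ha, hav⟩ := hf v (by simpa using hu)
      exact ⟨i :: a, by simpa using ha, hav⟩
    | true :: v =>
      obtain ⟨a, ha, hav⟩ := ht v (by simpa using hu)
      exact ⟨j :: a, by simpa using ha, hav⟩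

end Pool.Agent.MP_587aff_al.U
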