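import Pool.Agent.MP_587aff_al.U.Emb

/-!
# Random walks
-/

set_option autoImplicit false
set_option linter.unusedSectionVars false

open Finset Filter Topology

namespace Pool.Agent.MP_587aff_al.U

universe u

variable {G : Type u} [Group G]

open Classical in
/-- The `n`-fold convolution power of `p`: the law of the product of `n` independent elements of `G`
with law `p`. -/
noncomputable def law (p : G →₀ ℝ) : ℕ → G → ℝ
  | 0, g => if g = 1 then 1 else 0
  | n + 1, g => p.sum fun s a => a * law p n (g * s⁻¹)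

/-- the random walk as a process -/
noncomputable def walkProc (p : G →₀ ℝ) (h0 : ∀ g, 0 ≤ p g) (h1 : (p.sum fun _ a => a) = 1) :
    Proc Unit p.support G where
  K _ s := p s
  nx _ _ := ()
  φ s := s
  nonneg _ s := h0 s
  sum_one _ := by
    rw [← h1]
    exact Finset.sum_coe_sort p.support (fun s => p s)

theorem walkProc_W (p : G →₀ ℝ) (h0 : ∀ g, 0 ≤ p g) (h1 : (p.sum fun _ a => a) = 1) (n : ℕ)
    (g : G) : (walkProc p h0 h1).W n () g = law p n g := by
  induction n generalizing g with
  | zero => rfl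
  | succ n ih =>
    have h2 : law p (n + 1) g = ∑ s : p.support, p s * law p n (g * (s : G)⁻¹) :=
      (Finset.sum_coe_sort p.support (fun s => p s * law p n (g * s⁻¹))).symm
    rw [h2, Proc.W]
    refine Finset.sum_congr rfl fun s _ => ?_
    show p s * (walkProc p h0 h1).W n () (g * (s : G)⁻¹) = _
    rw [ih]

variable {p : G →₀ ℝ} (h0 : ∀ g, 0 ≤ p g) (h1 : (p.sum fun _ a => a) = 1)

include h0 in
theorem law_nonneg (n : ℕ) (g : G) : 0 ≤ law p n g := by
  induction n generalizing g with
  | zero => rw [law]; split_ifs <;> norm_num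
  | succ n ih => rw [law]; exact Finset.sum_nonneg fun s _ => mul_nonneg (h0 s) (ih _)

include h0 h1 in
theorem law_le_one (n : ℕ) (g : G) : law p n g ≤ 1 := by
  induction n generalizing g with
  | zero => rw [law]; split_ifs <;> norm_num
  | succ n ih =>
    rw [law, ← h1]
    exact Finset.sum_le_sum fun s _ => mul_le_of_le_one_right (h0 s) (ih _)

include h0 in
theorem law_mul (m n : ℕ) (g h : G) : law p m g * law p n h ≤ law p (m + n) (g * h) := by
  induction n generalizing h with
  | zero =>
    rw [law, add_zero]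
    split_ifs with hh
    · rw [hh, mul_one, mul_one]
    · rw [mul_zero]
      exact law_nonneg h0 _ _
  | succ n ih =>
    rw [← add_assoc, law, law, Finsupp.sum, Finsupp.sum, Finset.mul_sum]
    refine Finset.sum_le_sum fun s _ => ?_
    have h2 := mul_le_mul_of_nonneg_left (ih (h * s⁻¹)) (h0 s)
    rw [← mul_assoc g] at h2
    calc law p m g * (p s * law p n (h * s⁻¹)) = p s * (law p m g * law p n (h * s⁻¹)) := by ring
      _ ≤ _ := h2

/-- the concentration function -/
noncomputable def Mx (p : G →₀ ℝ) (n : ℕ) : ℝ := ⨆ g, law p n g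

include h0 h1 in
theorem law_bdd (n : ℕ) : BddAbove (Set.range fun g => law p n g) :=
  ⟨1, by rintro _ ⟨g, rfl⟩; exact law_le_one h0 h1 n g⟩

include h0 h1 in
theorem law_le_Mx (n : ℕ) (g : G) : law p n g ≤ Mx p n := le_ciSup (law_bdd h0 h1 n) g

include h0 h1 in
theorem Mx_nonneg (n : ℕ) : 0 ≤ Mx p n := (law_nonneg h0 n 1).trans (law_le_Mx h0 h1 n 1)

include h0 h1 in
theorem Mx_le_one (n : ℕ) : Mx p n ≤ 1 := ciSup_le fun g => law_le_one h0 h1 n g

include h0 h1 in
theorem Mx_mul (m n : ℕ) : Mx p m * Mx p n ≤ Mx p (m + n) := by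
  have e1 : ∀ h, Mx p m * law p n h ≤ Mx p (m + n) := by
    intro h
    rcases (law_nonneg h0 n h).eq_or_lt with h2 | h2
    · rw [← h2, mul_zero]
      exact Mx_nonneg h0 h1 _
    · rw [← le_div_iff₀ h2]
      refine ciSup_le fun g => ?_
      rw [le_div_iff₀ h2]
      exact (law_mul h0 m n g h).trans (law_le_Mx h0 h1 _ _)
  rcases (Mx_nonneg h0 h1 m).eq_or_lt with h2 | h2
  · rw [← h2, zero_mul]
    exact Mx_nonneg h0 h1 _
  · rw [mul_comm, ← le_div_iff₀ h2]
    refine ciSup_le fun h => ?_
    rw [le_div_iff₀ h2, mul_comm]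
    exact e1 h

include h0 h1 in
theorem Mx_pos (n : ℕ) : 0 < Mx p n := by
  have h2 : 0 < Mx p 1 := by
    obtain ⟨s, hs⟩ : ∃ s, 0 < p s := by
      by_contra hcon
      push Not at hcon
      have h3 : (p.sum fun _ a => a) ≤ 0 := Finset.sum_nonpos fun s _ => hcon s
      rw [h1] at h3
      linarith
    have h3 : p s ≤ law p 1 s := by
      have h4 : law p 1 s = ∑ t ∈ p.support, p t * law p 0 (s * t⁻¹) := rfl
      rw [h4]
      have h5 : p s * law p 0 (s * s⁻¹) = p s := by
        rw [mul_inv_cancel, law, if_pos rfl, mul_one]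
      rw [← h5]
      exact Finset.single_le_sum (f := fun t => p t * law p 0 (s * t⁻¹))
        (fun t _ => mul_nonneg (h0 t) (law_nonneg h0 _ _))
        (Finsupp.mem_support_iff.mpr hs.ne')
    exact hs.trans_le (h3.trans (law_le_Mx h0 h1 1 s))
  induction n with
  | zero =>
    have h3 : law p 0 (1 : G) = 1 := by rw [law, if_pos rfl]
    have h4 := law_le_Mx h0 h1 0 (1 : G)
    rw [h3] at h4
    linarith
  | succ n ih => exact (mul_pos ih h2).trans_le (Mx_mul h0 h1 n 1)

include h0 h1 in
theorem subadd : Subadditive fun n => -Real.log (Mx p n) := by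
  intro m n
  have h2 := Mx_mul h0 h1 m n
  have h3 := Mx_pos h0 h1 m
  have h4 := Mx_pos h0 h1 n
  have h5 := Real.log_le_log (mul_pos h3 h4) h2
  rw [Real.log_mul h3.ne' h4.ne'] at h5
  linarith

include h0 h1 in
/-- In a supramenable group the maximal probability of the `n`-step distribution of every random
walk with bounded steps decays subexponentially. -/
theorem walk_tendsto (hG : Supra G) :
    Tendsto (fun n : ℕ => (Mx p n) ^ ((1 : ℝ) / n)) atTop (𝓝 1) := by
  have hu := subadd h0 h1
  have hnn : ∀ n, 0 ≤ -Real.log (Mx p n) := fun n => by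
    have := Real.log_nonpos (Mx_nonneg h0 h1 n) (Mx_le_one h0 h1 n)
    linarith
  have hbdd : BddBelow (Set.range fun n : ℕ => (-Real.log (Mx p n)) / n) :=
    ⟨0, by rintro _ ⟨n, rfl⟩; exact div_nonneg (hnn n) (Nat.cast_nonneg n)⟩
  have hlim := hu.tendsto_lim hbdd
  have hL0 : 0 ≤ hu.lim :=
    ge_of_tendsto' hlim fun n => div_nonneg (hnn n) (Nat.cast_nonneg n)
  have hL : hu.lim = 0 := by
    rcases hL0.eq_or_lt with h | h
    · exact h.symm
    · exfalso
      refine no_process hG (walkProc p h0 h1) 1 (Real.exp (-hu.lim)) (by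
        rw [Real.exp_lt_one_iff]
        linarith) ?_
      rintro k ⟨⟩ g
      rw [walkProc_W, one_mul]
      refine (law_le_Mx h0 h1 k g).trans ?_
      rcases Nat.eq_zero_or_pos k with rfl | hk
      · rw [pow_zero]
        exact Mx_le_one h0 h1 0
      · have h2 := hu.lim_le_div hbdd hk.ne'
        have hk0 : (0 : ℝ) < k := by exact_mod_cast hk
        rw [le_div_iff₀ hk0] at h2
        rw [← Real.exp_nat_mul, ← Real.log_le_iff_le_exp (Mx_pos h0 h1 k)]
        linarith
  rw [hL] at hlim
  have h2 : Tendsto (fun n : ℕ => Real.exp (-((-Real.log (Mx p n)) / n))) atTop (𝓝 1) := by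
    have h3 := (Real.continuous_exp.tendsto _).comp hlim.neg
    rw [neg_zero, Real.exp_zero] at h3
    exact h3
  refine h2.congr fun n => ?_
  rw [Real.rpow_def_of_pos (Mx_pos h0 h1 n)]
  congr 1
  ring

end Pool.Agent.MP_587aff_al.U
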